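import Pool.Agent.H238.ProdChars

/-!
# MP_e62806_an, Q2: invertible `f` gives nothing new

If `G` lies in the class `𝒢` and `f ∈ ℤG` is invertible in `ℓ¹(G)`, then every measurable circle
valued cocycle of the principal algebraic action `G ↷ X_f` is cohomologous to a homomorphism, and
every crossed homomorphism `G → ℤG/ℤGf` is principal.

Proof. The lift `𝕋 → [0, 1)` followed by convolution with `f⁻¹` is an equivariant section of the
surjection `𝕋 ^ G → 𝕋 ^ G` dual to `r ↦ r f`, whose kernel is `X_f`. So `X_f × 𝕋 ^ G` is isomorphic to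
the Bernoulli shift `𝕋 ^ G`. A cocycle of `X_f` pulled back to the product becomes cohomologous to
a homomorphism, and by ergodicity of `𝕋 ^ G × 𝕋 ^ G × X_f` the transfer function, up to a constant,
depends on the coordinate in `X_f` only.
-/

set_option autoImplicit false
set_option linter.unusedSectionVars false

open MeasureTheory Pool.Agent.H238.DualGroup Pool.Agent.H238.PrincipalAlg Pool.Agent.H238
open scoped ComplexConjugate

namespace Pool.Agent.Results.MP_e62806_an.NoneForInvertible

noncomputable section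

section defs

variable {G : Type} [Group G]

/-- The left `ℤG`-module `ℤG/ℤGf`. -/
abbrev Mod (f : MonoidAlgebra ℤ G) : Type :=
  MonoidAlgebra ℤ G ⧸ Submodule.span (MonoidAlgebra ℤ G) {f}

/-- The dual action of `G` on the dual group `X_f` of `ℤG/ℤGf`: `(g x)(m) = x (g⁻¹ m)`. -/
def act (f : MonoidAlgebra ℤ G) (g : G) (x : X (Mod f)) : X (Mod f) :=
  ⟨fun m => x.1 ((MonoidAlgebra.single g⁻¹ (1 : ℤ) : MonoidAlgebra ℤ G) • m), by
    intro a b
    show x.1 ((MonoidAlgebra.single g⁻¹ (1 : ℤ) : MonoidAlgebra ℤ G) • (a + b)) = _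
    rw [smul_add]; exact x.2 _ _⟩

/-- A measurable circle valued cocycle of the action `T` of `G` on `(Ω, μ)`. -/
structure IsCocycle {Ω : Type} [MeasurableSpace Ω] (μ : Measure Ω) (T : G → Ω → Ω)
    (c : G → Ω → Circle) : Prop where
  measurable : ∀ g, Measurable (c g)
  mul : ∀ g h, ∀ᵐ x ∂μ, c (g * h) x = c g x * c h (T g⁻¹ x)

/-- Every cocycle is cohomologous to a homomorphism. -/
def Superrigid {Ω : Type} [MeasurableSpace Ω] (μ : Measure Ω) (T : G → Ω → Ω) : Prop :=
  ∀ c : G → Ω → Circle, IsCocycle μ T c →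
    ∃ (χ : G →* Circle) (b : Ω → Circle), Measurable b ∧
      ∀ g, ∀ᵐ x ∂μ, c g x * b (T g⁻¹ x) * (b x)⁻¹ = χ g

/-- The shift action of `G` on `X₀ ^ G`. -/
def shift {X₀ : Type} (g : G) (x : G → X₀) : G → X₀ := fun h => x (g⁻¹ * h)

variable (G) in
/-- The class `𝒢`: all Bernoulli shifts of `G` over standard probability spaces are superrigid. -/
def InClassG : Prop :=
  ∀ (X₀ : Type) [MeasurableSpace X₀] [StandardBorelSpace X₀] (μ₀ : Measure X₀)
    [IsProbabilityMeasure μ₀], Superrigid (Measure.infinitePi fun _ : G => μ₀) (shift (X₀ := X₀))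

/-- `H¹(G, ℤG/ℤGf) = 0`: every crossed homomorphism is principal. -/
def CohomologyVanishes (f : MonoidAlgebra ℤ G) : Prop :=
  ∀ δ : G → Mod f,
    (∀ g h, δ (g * h) = δ g + (MonoidAlgebra.single g (1 : ℤ) : MonoidAlgebra ℤ G) • δ h) →
    ∃ m : Mod f, ∀ g, δ g = (MonoidAlgebra.single g (1 : ℤ) : MonoidAlgebra ℤ G) • m - m

open Classical in
/-- `f` is invertible in the convolution algebra `ℓ¹(G)`. -/
def InvertibleL1 (f : MonoidAlgebra ℤ G) : Prop :=
  ∃ w : G → ℂ, Summable (fun g => ‖w g‖) ∧
    (∀ u, ∑ k ∈ f.coeff.support, (f.coeff k : ℂ) * w (k⁻¹ * u) = if u = 1 then 1 else 0) ∧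
    (∀ u, ∑ k ∈ f.coeff.support, w (u * k⁻¹) * (f.coeff k : ℂ) = if u = 1 then 1 else 0)

end defs

section alg

variable {G : Type} [Group G]

/-- the group ring -/
abbrev A (G : Type) [Group G] := MonoidAlgebra ℤ G

instance [Countable G] : Countable (A G) :=
  (MonoidAlgebra.coeff_injective : Function.Injective (MonoidAlgebra.coeff : A G → (G →₀ ℤ))).countable

instance [Countable G] (f : A G) : Countable (Mod f) := (Submodule.Quotient.mk_surjective _).countable

theorem single_eq (g : G) (n : ℤ) : (MonoidAlgebra.single g n : A G) = n • MonoidAlgebra.single g 1 := by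
  rw [MonoidAlgebra.smul_single]; simp

theorem X_ext {x y : X (A G)}
    (h : ∀ g, x.1 (MonoidAlgebra.single g 1) = y.1 (MonoidAlgebra.single g 1)) : x = y := by
  apply Subtype.ext
  funext r
  induction r using MonoidAlgebra.induction_linear with
  | zero => rw [X_zero, X_zero]
  | add a b ha hb => rw [X_add, X_add, ha, hb]
  | single g n => rw [single_eq, X_zsmul, X_zsmul, h]

/-- values at group elements -/
def J (x : X (A G)) : G → Circle := fun g => x.1 (MonoidAlgebra.single g 1)

/-- the character with given values at group elements -/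
def K (y : G → Circle) : X (A G) := ⟨fun r => r.coeff.prod fun g n => y g ^ n, by
  intro a b
  show (a + b).coeff.prod _ = _
  rw [MonoidAlgebra.coeff_add]
  exact Finsupp.prod_add_index' (fun g => zpow_zero _) (fun g m n => zpow_add _ _ _)⟩

theorem K_single (y : G → Circle) (g : G) : (K y).1 (MonoidAlgebra.single g 1) = y g := by
  show (MonoidAlgebra.single g (1 : ℤ)).coeff.prod _ = y g
  rw [MonoidAlgebra.coeff_single, Finsupp.prod_single_index (zpow_zero _), zpow_one]

theorem J_K (y : G → Circle) : J (K y) = y := funext fun g => K_single y g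

theorem K_J (x : X (A G)) : K (J x) = x := X_ext fun g => K_single (J x) g

/-- the action on the dual of the group ring -/
def actA (g : G) (x : X (A G)) : X (A G) :=
  ⟨fun r => x.1 (MonoidAlgebra.single g⁻¹ 1 * r), by
    intro a b
    show x.1 (MonoidAlgebra.single g⁻¹ 1 * (a + b)) = _
    rw [mul_add]; exact x.2 _ _⟩

theorem J_actA (g : G) (x : X (A G)) : J (actA g x) = shift g (J x) := by
  funext h
  show x.1 (MonoidAlgebra.single g⁻¹ 1 * MonoidAlgebra.single h 1) = x.1 (MonoidAlgebra.single (g⁻¹ * h) 1)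
  rw [MonoidAlgebra.single_mul_single, mul_one]

theorem K_shift (g : G) (y : G → Circle) : K (shift g y) = actA g (K y) := by
  apply X_ext
  intro h
  rw [K_single]
  show y (g⁻¹ * h) = (K y).1 (MonoidAlgebra.single g⁻¹ 1 * MonoidAlgebra.single h 1)
  rw [MonoidAlgebra.single_mul_single, mul_one, K_single]

variable (f : A G)

theorem sum_single : f = ∑ k ∈ f.coeff.support, MonoidAlgebra.single k (f.coeff k) := by
  classical
  ext g
  rw [MonoidAlgebra.coeff_sum, Finsupp.finsetSum_apply]
  simp only [MonoidAlgebra.coeff_single, Finsupp.single_apply]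
  rw [Finset.sum_ite_eq' f.coeff.support g f.coeff]
  split_ifs with h
  · rfl
  · simpa using h

theorem X_single_mul (x : X (A G)) (g : G) :
    x.1 (MonoidAlgebra.single g 1 * f) =
      ∏ k ∈ f.coeff.support, x.1 (MonoidAlgebra.single (g * k) 1) ^ (f.coeff k) := by
  conv_lhs => rw [sum_single f, Finset.mul_sum, X_sum]
  apply Finset.prod_congr rfl
  intro k _
  rw [MonoidAlgebra.single_mul_single, one_mul, single_eq, X_zsmul]

/-- dual of right multiplication by `f` -/
def Q (y : X (A G)) : X (A G) := ⟨fun r => y.1 (r * f), by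
  intro a b
  show y.1 ((a + b) * f) = _
  rw [add_mul]; exact y.2 _ _⟩

theorem Q_mul (y z : X (A G)) : Q f (y * z) = Q f y * Q f z := rfl
theorem Q_inv (y : X (A G)) : Q f y⁻¹ = (Q f y)⁻¹ := rfl

theorem Q_actA (g : G) (y : X (A G)) : Q f (actA g y) = actA g (Q f y) := by
  apply Subtype.ext
  funext r
  show y.1 (MonoidAlgebra.single g⁻¹ 1 * (r * f)) = y.1 (MonoidAlgebra.single g⁻¹ 1 * r * f)
  rw [mul_assoc]

/-- class -/
def mk (r : A G) : Mod f := Submodule.Quotient.mk r

theorem mk_eq_zero {r : A G} : mk f r = 0 ↔ ∃ u : A G, u * f = r := by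
  unfold mk
  rw [Submodule.Quotient.mk_eq_zero, Submodule.mem_span_singleton]
  rfl

theorem mk_surj (m : Mod f) : ∃ r : A G, mk f r = m := Submodule.Quotient.mk_surjective _ m

/-- inclusion of `X_f` -/
def incl (x : X (Mod f)) : X (A G) := ⟨fun r => x.1 (mk f r), fun a b => x.2 (mk f a) (mk f b)⟩

theorem incl_mul (x y : X (Mod f)) : incl f (x * y) = incl f x * incl f y := rfl

theorem Q_incl (x : X (Mod f)) : Q f (incl f x) = 1 := by
  apply Subtype.ext
  funext r
  show x.1 (mk f (r * f)) = 1
  have : mk f (r * f) = 0 := (mk_eq_zero f).mpr ⟨r, rfl⟩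
  rw [this, X_zero]

theorem eq_of_mk {y : X (A G)} (h : Q f y = 1) {r r' : A G} (e : mk f r = mk f r') : y.1 r = y.1 r' := by
  have h1 : mk f (r - r') = 0 := by
    show mk f r - mk f r' = 0
    rw [e, sub_self]
  obtain ⟨u, hu⟩ := (mk_eq_zero f).mp h1
  have h2 : y.1 (u * f) = 1 := congrArg (fun t : X (A G) => t.1 u) h
  have h3 : r = r' + u * f := by rw [hu]; abel
  rw [h3, X_add, h2, mul_one]

/-- a representative -/
def rep (m : Mod f) : A G := (mk_surj f m).choose
theorem mk_rep (m : Mod f) : mk f (rep f m) = m := (mk_surj f m).choose_spec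

open Classical in
/-- the element of `X_f` given by a character killing `ℤGf` -/
def toX (y : X (A G)) : X (Mod f) :=
  if h : Q f y = 1 then ⟨fun m => y.1 (rep f m), by
    intro a b
    show y.1 (rep f (a + b)) = y.1 (rep f a) * y.1 (rep f b)
    rw [← X_add]
    apply eq_of_mk f h
    rw [mk_rep]
    show _ = mk f (rep f a) + mk f (rep f b)
    rw [mk_rep, mk_rep]⟩ else 1

theorem toX_apply {y : X (A G)} (h : Q f y = 1) (m : Mod f) : (toX f y).1 m = y.1 (rep f m) := by
  unfold toX
  rw [dif_pos h]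

theorem incl_toX {y : X (A G)} (h : Q f y = 1) : incl f (toX f y) = y := by
  apply Subtype.ext
  funext r
  show (toX f y).1 (mk f r) = y.1 r
  rw [toX_apply f h]
  exact eq_of_mk f h (mk_rep f _)

theorem incl_inj {x x' : X (Mod f)} (h : incl f x = incl f x') : x = x' := by
  apply Subtype.ext
  funext m
  obtain ⟨r, rfl⟩ := mk_surj f m
  exact congrArg (fun t : X (A G) => t.1 r) h

theorem toX_incl (x : X (Mod f)) : toX f (incl f x) = x := incl_inj f (incl_toX f (Q_incl f x))

theorem incl_act (g : G) (x : X (Mod f)) : incl f (act f g x) = actA g (incl f x) := rfl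

end alg

/-! ### measures -/

section meas

variable {G : Type} [Group G] [Countable G]

/-- Haar measure of the circle -/
def hc : Measure Circle := Measure.haarMeasure (⊤ : TopologicalSpace.PositiveCompacts Circle)

instance : hc.IsHaarMeasure := by unfold hc; infer_instance

instance : IsProbabilityMeasure hc := by
  constructor
  have := Measure.haarMeasure_self (K₀ := (⊤ : TopologicalSpace.PositiveCompacts Circle))
  rw [TopologicalSpace.PositiveCompacts.coe_top] at this
  exact this

/-- product measure -/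
def μ₀ (G : Type) : Measure (G → Circle) := Measure.infinitePi fun _ => hc

instance : IsProbabilityMeasure (μ₀ G) := by unfold μ₀; infer_instance

instance : (μ₀ G).IsMulLeftInvariant := by
  constructor
  intro y
  have h := Measure.infinitePi_map_pi (μ := fun _ : G => hc) (f := fun g u => y g * u)
    (fun g => measurable_const_mul (y g))
  have h2 : (fun g : G => Measure.map (fun u => y g * u) hc) = fun _ => hc := by
    funext g
    exact map_mul_left_eq_self hc (y g)
  rw [h2] at h
  exact h

instance : (μ₀ G).IsHaarMeasure := by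
  apply Measure.isHaarMeasure_of_isCompact_nonempty_interior (μ₀ G) Set.univ isCompact_univ
  · simp
  · simp
  · simp

theorem J_cont : Continuous (J : X (A G) → (G → Circle)) :=
  continuous_pi fun g => (continuous_apply _).comp continuous_subtype_val

/-- `J` as a homomorphism -/
def Jhom : X (A G) →* (G → Circle) where
  toFun := J
  map_one' := rfl
  map_mul' := fun _ _ => rfl

theorem J_mp : MeasurePreserving (J : X (A G) → (G → Circle)) (ν (A G)) (μ₀ G) := by
  refine MonoidHom.measurePreserving (μ := ν (A G)) (ν := μ₀ G) (f := Jhom) J_cont ?_ ?_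
  · intro y; exact ⟨K y, J_K y⟩
  · rw [measure_univ, measure_univ]

theorem K_meas : Measurable (K : (G → Circle) → X (A G)) := by
  apply measurable_X
  intro r
  show Measurable fun y : G → Circle => r.coeff.prod fun g n => y g ^ n
  unfold Finsupp.prod
  apply Finset.measurable_prod
  intro g _
  exact (continuous_zpow _).measurable.comp (measurable_pi_apply g)

theorem K_mp : MeasurePreserving (K : (G → Circle) → X (A G)) (μ₀ G) (ν (A G)) := by
  refine ⟨K_meas, ?_⟩
  rw [← J_mp.map_eq, Measure.map_map K_meas J_mp.measurable]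
  have : (K ∘ J : X (A G) → X (A G)) = id := funext K_J
  rw [this, Measure.map_id]

theorem Q_meas (f : A G) : Measurable (Q f) := by
  apply measurable_X
  intro r
  exact measurable_coord _

/-! ### the section -/

/-- angle -/
def ang (u : Circle) : ℝ := Complex.arg (u : ℂ)

theorem exp_ang (u : Circle) : Circle.exp (ang u) = u := Circle.exp_arg u

theorem ang_bd (u : Circle) : |ang u| ≤ Real.pi := Complex.abs_arg_le_pi _

theorem ang_meas : Measurable ang := by
  have h : Continuous fun u : Circle => (u : ℂ) := continuous_subtype_val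
  exact Complex.measurable_arg.comp h.measurable

variable (w : G → ℝ)

/-- `w` applied to the angles -/
def W (z : X (A G)) (g : G) : ℝ := ∑' h, w h * ang (z.1 (MonoidAlgebra.single (g * h) 1))

variable {w} (hw : Summable fun g => |w g|)

include hw in
theorem summ (z : X (A G)) (g : G) :
    Summable fun h => w h * ang (z.1 (MonoidAlgebra.single (g * h) 1)) := by
  refine Summable.of_norm_bounded (g := fun h => |w h| * Real.pi) (hw.mul_right _) ?_
  intro h
  rw [Real.norm_eq_abs, abs_mul]
  exact mul_le_mul_of_nonneg_left (ang_bd _) (abs_nonneg _)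

include hw in
theorem W_meas (g : G) : Measurable fun z : X (A G) => W w z g := by
  refine measurable_of_tendsto_metrizable' (Filter.atTop : Filter (Finset G))
    (f := fun S z => ∑ h ∈ S, w h * ang (z.1 (MonoidAlgebra.single (g * h) 1))) ?_ ?_
  · intro S
    apply Finset.measurable_sum
    intro h _
    exact (ang_meas.comp (measurable_coord _)).const_mul _
  · rw [tendsto_pi_nhds]
    intro z
    exact (summ hw z g).hasSum

/-- the section of `Q` -/
def sec (w : G → ℝ) (z : X (A G)) : X (A G) := K fun g => Circle.exp (W w z g)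

theorem sec_single (z : X (A G)) (g : G) :
    (sec w z).1 (MonoidAlgebra.single g 1) = Circle.exp (W w z g) := K_single _ g

theorem W_actA (g h : G) (z : X (A G)) : W w (actA g z) h = W w z (g⁻¹ * h) := by
  unfold W
  congr 1
  funext k
  show w k * ang (z.1 (MonoidAlgebra.single g⁻¹ 1 * MonoidAlgebra.single (h * k) 1)) = _
  rw [MonoidAlgebra.single_mul_single, mul_one, mul_assoc]

theorem sec_actA (g : G) (z : X (A G)) : sec w (actA g z) = actA g (sec w z) := by
  apply X_ext
  intro h
  rw [sec_single, W_actA]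
  show _ = (sec w z).1 (MonoidAlgebra.single g⁻¹ 1 * MonoidAlgebra.single h 1)
  rw [MonoidAlgebra.single_mul_single, mul_one, sec_single]

include hw in
theorem sec_meas : Measurable (sec w : X (A G) → X (A G)) := by
  apply K_meas.comp
  rw [measurable_pi_iff]
  intro g
  exact Circle.exp.continuous.measurable.comp (W_meas hw g)

theorem exp_zsmul (n : ℤ) (x : ℝ) : Circle.exp (n * x) = Circle.exp x ^ n := by
  have := map_zsmul Circle.expHom n x
  rw [zsmul_eq_mul] at this
  exact congrArg Additive.toMul this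

theorem exp_sum {ι : Type} (s : Finset ι) (F : ι → ℝ) :
    Circle.exp (∑ i ∈ s, F i) = ∏ i ∈ s, Circle.exp (F i) := by
  have := map_sum Circle.expHom F s
  exact congrArg Additive.toMul this

open Classical in
include hw in
theorem Q_sec (f : A G)
    (hf : ∀ u, ∑ k ∈ f.coeff.support, (f.coeff k : ℝ) * w (k⁻¹ * u) = if u = 1 then 1 else 0)
    (z : X (A G)) : Q f (sec w z) = z := by
  apply X_ext
  intro g
  show (sec w z).1 (MonoidAlgebra.single g 1 * f) = z.1 (MonoidAlgebra.single g 1)
  rw [X_single_mul]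
  have h1 : ∀ k ∈ f.coeff.support, (sec w z).1 (MonoidAlgebra.single (g * k) 1) ^ (f.coeff k) =
      Circle.exp ((f.coeff k : ℝ) * W w z (g * k)) := by
    intro k _
    rw [sec_single, exp_zsmul]
  rw [Finset.prod_congr rfl h1, ← exp_sum]
  rw [← exp_ang (z.1 (MonoidAlgebra.single g 1))]
  congr 1
  have h2 : ∀ k, W w z (g * k) = ∑' u, w (k⁻¹ * u) * ang (z.1 (MonoidAlgebra.single (g * u) 1)) := by
    intro k
    rw [← (Equiv.mulLeft k).tsum_eq]
    unfold W
    congr 1
    funext h
    simp only [Equiv.coe_mulLeft]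
    rw [inv_mul_cancel_left, mul_assoc]
  have h3 : ∀ k, Summable fun u => w (k⁻¹ * u) * ang (z.1 (MonoidAlgebra.single (g * u) 1)) := by
    intro k
    rw [← (Equiv.mulLeft k).summable_iff]
    have := summ hw z (g * k)
    refine this.congr ?_
    intro h
    simp only [Function.comp, Equiv.coe_mulLeft]
    rw [inv_mul_cancel_left, mul_assoc]
  have h4 : ∑ k ∈ f.coeff.support, (f.coeff k : ℝ) * W w z (g * k) =
      ∑' u, ∑ k ∈ f.coeff.support,
        (f.coeff k : ℝ) * (w (k⁻¹ * u) * ang (z.1 (MonoidAlgebra.single (g * u) 1))) := by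
    rw [Summable.tsum_finsetSum (fun k _ => (h3 k).mul_left _)]
    apply Finset.sum_congr rfl
    intro k _
    rw [h2, tsum_mul_left]
  rw [h4]
  have h5 : ∀ u, ∑ k ∈ f.coeff.support,
        (f.coeff k : ℝ) * (w (k⁻¹ * u) * ang (z.1 (MonoidAlgebra.single (g * u) 1))) =
      if u = 1 then ang (z.1 (MonoidAlgebra.single g 1)) else 0 := by
    intro u
    have : ∀ k, (f.coeff k : ℝ) * (w (k⁻¹ * u) * ang (z.1 (MonoidAlgebra.single (g * u) 1))) =
        ((f.coeff k : ℝ) * w (k⁻¹ * u)) * ang (z.1 (MonoidAlgebra.single (g * u) 1)) := by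
      intro k; ring
    simp only [this]
    rw [← Finset.sum_mul, hf]
    split_ifs with h
    · rw [h, mul_one, one_mul]
    · rw [zero_mul]
  rw [tsum_congr h5, tsum_ite_eq]


variable {f : A G}

/-- the hypothesis on `w` -/
def Sec (f : A G) (w : G → ℝ) : Prop := ∀ z : X (A G), Q f (sec w z) = z

variable (hs : Sec f w)

/-- the projection onto `X_f` -/
def P (f : A G) (w : G → ℝ) (y : X (A G)) : X (Mod f) := toX f (y * (sec w (Q f y))⁻¹)

include hs in
theorem Q_P (y : X (A G)) : Q f (y * (sec w (Q f y))⁻¹) = 1 := by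
  rw [Q_mul, Q_inv, hs, mul_inv_cancel]

/-- the map `X_f × dual of ℤG → dual of ℤG` -/
def Φ (f : A G) (w : G → ℝ) (p : X (A G) × X (Mod f)) : X (A G) := incl f p.2 * sec w p.1

include hs in
theorem P_Φ (p : X (A G) × X (Mod f)) : P f w (Φ f w p) = p.2 := by
  have h1 : Q f (Φ f w p) = p.1 := by
    unfold Φ
    rw [Q_mul, Q_incl, one_mul, hs]
  unfold P
  rw [h1]
  unfold Φ
  rw [mul_inv_cancel_right, toX_incl]

theorem actA_mul (g : G) (x y : X (A G)) : actA g (x * y) = actA g x * actA g y := rfl
theorem actA_inv (g : G) (x : X (A G)) : actA g x⁻¹ = (actA g x)⁻¹ := rfl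

include hs in
theorem P_actA (g : G) (y : X (A G)) : P f w (actA g y) = act f g (P f w y) := by
  apply incl_inj
  rw [incl_act]
  unfold P
  rw [incl_toX f (Q_P hs _), incl_toX f (Q_P hs _), actA_mul, actA_inv, Q_actA, sec_actA]

theorem Φ_act (g : G) (p : X (A G) × X (Mod f)) :
    Φ f w (actA g p.1, act f g p.2) = actA g (Φ f w p) := by
  unfold Φ
  rw [incl_act, sec_actA, actA_mul]

include hw in
theorem toX_meas {α : Type} [MeasurableSpace α] (F : α → X (A G)) (hF : Measurable F)
    (hQ : ∀ a, Q f (F a) = 1) : Measurable fun a => toX f (F a) := by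
  apply measurable_X
  intro m
  have : (fun a => (toX f (F a)).1 m) = fun a => (F a).1 (rep f m) := by
    funext a
    exact toX_apply f (hQ a) m
  rw [this]
  exact (measurable_coord _).comp hF

include hw hs in
theorem P_meas : Measurable (P f w) := by
  apply toX_meas hw (fun y => y * (sec w (Q f y))⁻¹) ?_ (fun y => Q_P hs y)
  exact measurable_id.mul ((sec_meas hw).comp (Q_meas f)).inv

theorem incl_cont : Continuous (incl f) := by
  have h : Continuous (fun x : X (Mod f) => fun r : A G => x.1 (mk f r)) :=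
    continuous_pi fun r => (continuous_apply _).comp continuous_subtype_val
  exact Continuous.subtype_mk h (fun x => (incl f x).2)

include hw in
theorem Φ_meas : Measurable (Φ f w) :=
  (incl_cont.measurable.comp measurable_snd).mul ((sec_meas hw).comp measurable_fst)

/-- the skew translation -/
def κ (f : A G) (w : G → ℝ) (u z : X (A G)) : X (Mod f) := toX f (u * sec w z * (sec w (Q f u * z))⁻¹)

include hs in
theorem Q_κ (u z : X (A G)) : Q f (u * sec w z * (sec w (Q f u * z))⁻¹) = 1 := by
  rw [Q_mul, Q_mul, Q_inv, hs, hs, mul_inv_cancel]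

include hs in
theorem Φ_skew (u : X (A G)) (p : X (A G) × X (Mod f)) :
    Φ f w (Q f u * p.1, κ f w u p.1 * p.2) = u * Φ f w p := by
  unfold Φ κ
  rw [incl_mul, incl_toX f (Q_κ hs _ _)]
  have e : ∀ a b c d : X (A G), a * b * c⁻¹ * d * c = a * (d * b) := by
    intro a b c d
    rw [mul_assoc a b, mul_assoc a, mul_assoc a]
    congr 1
    rw [mul_comm d b, mul_assoc b, mul_assoc, mul_comm c⁻¹ d, mul_assoc, inv_mul_cancel, mul_one]
  exact e _ _ _ _

include hw hs in
theorem κ_meas (u : X (A G)) : Measurable (κ f w u) := by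
  apply toX_meas hw (fun z => u * sec w z * (sec w (Q f u * z))⁻¹) ?_ (fun z => Q_κ hs u z)
  exact ((sec_meas hw).const_mul u).mul ((sec_meas hw).comp (measurable_const_mul _)).inv

/-- the product measure -/
abbrev m2 (f : A G) : Measure (X (A G) × X (Mod f)) := (ν (A G)).prod (ν (Mod f))

include hw hs in
theorem skew_mp (u : X (A G)) : MeasurePreserving
    (fun p : X (A G) × X (Mod f) => (Q f u * p.1, κ f w u p.1 * p.2)) (m2 f) (m2 f) := by
  have h1 : Measurable (Function.uncurry fun (z : X (A G)) (x : X (Mod f)) => κ f w u z * x) :=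
    ((κ_meas hw hs u).comp measurable_fst).mul measurable_snd
  have h2 : ∀ᵐ z ∂(ν (A G)), Measure.map (fun x : X (Mod f) => κ f w u z * x) (ν (Mod f)) = ν (Mod f) := by
    filter_upwards with z
    exact map_mul_left_eq_self _ _
  exact MeasurePreserving.skew_product (measurePreserving_mul_left (ν (A G)) (Q f u)) h1 h2

include hw hs in
theorem Φ_mp : MeasurePreserving (Φ f w) (m2 f) (ν (A G)) := by
  have hm := Φ_meas (f := f) hw
  refine ⟨hm, ?_⟩
  have hp : IsProbabilityMeasure (Measure.map (Φ f w) (m2 f)) :=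
    Measure.isProbabilityMeasure_map hm.aemeasurable
  have hinv : (Measure.map (Φ f w) (m2 f)).IsMulLeftInvariant := by
    constructor
    intro u
    rw [Measure.map_map (measurable_const_mul u) hm]
    have h1 : ((fun y => u * y) ∘ Φ f w) =
        Φ f w ∘ fun p : X (A G) × X (Mod f) => (Q f u * p.1, κ f w u p.1 * p.2) := by
      funext p
      exact (Φ_skew hs u p).symm
    rw [h1, ← Measure.map_map hm (skew_mp hw hs u).measurable, (skew_mp hw hs u).map_eq]
  have hH : (Measure.map (Φ f w) (m2 f)).IsHaarMeasure := by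
    apply Measure.isHaarMeasure_of_isCompact_nonempty_interior _ Set.univ isCompact_univ
    · simp
    · rw [measure_univ]; exact one_ne_zero
    · rw [measure_univ]; exact ENNReal.one_ne_top
  exact Measure.isHaarMeasure_eq_of_isProbabilityMeasure _ _

theorem snd_mp : MeasurePreserving (Prod.snd : X (A G) × X (Mod f) → X (Mod f)) (m2 f) (ν (Mod f)) := by
  refine ⟨measurable_snd, ?_⟩
  have h := Measure.map_snd_prod (μ := (ν (A G) : Measure (X (A G)))) (ν := (ν (Mod f) : Measure (X (Mod f))))
  rw [measure_univ, one_smul] at h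
  exact h

include hw hs in
theorem P_mp : MeasurePreserving (P f w) (ν (A G)) (ν (Mod f)) := by
  refine ⟨P_meas hw hs, ?_⟩
  rw [← (Φ_mp hw hs).map_eq, Measure.map_map (P_meas hw hs) (Φ_mp hw hs).measurable]
  have : P f w ∘ Φ f w = Prod.snd := funext fun p => P_Φ hs p
  rw [this]
  exact snd_mp.map_eq

/-- the action on the dual of the group ring as the pull-back of an automorphism -/
def autA (g : G) : A G ≃+ A G where
  toFun r := MonoidAlgebra.single g 1 * r
  invFun r := MonoidAlgebra.single g⁻¹ 1 * r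
  left_inv r := by
    beta_reduce
    rw [← mul_assoc, MonoidAlgebra.single_mul_single, inv_mul_cancel, mul_one, ← MonoidAlgebra.one_def,
      one_mul]
  right_inv r := by
    beta_reduce
    rw [← mul_assoc, MonoidAlgebra.single_mul_single, mul_inv_cancel, mul_one, ← MonoidAlgebra.one_def,
      one_mul]
  map_add' := mul_add _

/-- the same on the quotient -/
def autM (f : A G) (g : G) : Mod f ≃+ Mod f where
  toFun m := (MonoidAlgebra.single g 1 : A G) • m
  invFun m := (MonoidAlgebra.single g⁻¹ 1 : A G) • m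
  left_inv m := by
    beta_reduce
    rw [smul_smul, MonoidAlgebra.single_mul_single, inv_mul_cancel, mul_one, ← MonoidAlgebra.one_def,
      one_smul]
  right_inv m := by
    beta_reduce
    rw [smul_smul, MonoidAlgebra.single_mul_single, mul_inv_cancel, mul_one, ← MonoidAlgebra.one_def,
      one_smul]
  map_add' := smul_add _

theorem actA_mp (g : G) : MeasurePreserving (actA g : X (A G) → X (A G)) (ν (A G)) (ν (A G)) :=
  pull_mp (autA g⁻¹)

theorem act_mp (f : A G) (g : G) : MeasurePreserving (act f g) (ν (Mod f)) (ν (Mod f)) :=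
  pull_mp (autM f g⁻¹)

end meas

/-! ### infinite orbits -/

section orb

variable {G : Type} [Group G] [Infinite G]

theorem orbA (i : A G) (hi : i ≠ 0) :
    (Set.range fun g : G => (MonoidAlgebra.single g 1 * i : A G)).Infinite := by
  intro hfin
  have : Finite (Set.range fun g : G => (MonoidAlgebra.single g 1 * i : A G)) := hfin
  obtain ⟨⟨y, hy⟩, hinf⟩ := Finite.exists_infinite_fiber
    (Set.rangeFactorization fun g : G => (MonoidAlgebra.single g 1 * i : A G))
  have hs0 : ∃ s₀, i.coeff s₀ ≠ 0 := by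
    by_contra hcon
    push Not at hcon
    apply hi
    ext g
    simpa using hcon g
  obtain ⟨s₀, hs0⟩ := hs0
  let φ : (Set.rangeFactorization fun g : G => (MonoidAlgebra.single g 1 * i : A G)) ⁻¹' {⟨y, hy⟩} →
      y.coeff.support := fun g => ⟨g.1 * s₀, by
    have h1 : (MonoidAlgebra.single g.1 1 * i : A G) = y := congrArg Subtype.val g.2
    have h2 : (MonoidAlgebra.single g.1 1 * i : A G).coeff (g.1 * s₀) = y.coeff (g.1 * s₀) :=
      congrArg (fun a : A G => a.coeff (g.1 * s₀)) h1
    rw [single_coeff, inv_mul_cancel_left] at h2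
    rw [Finsupp.mem_support_iff, ← h2]
    exact hs0⟩
  have hφ : Function.Injective φ := by
    intro a b hab
    have := congrArg Subtype.val hab
    exact Subtype.ext (mul_right_cancel this)
  exact (not_finite_iff_infinite.mpr hinf) (Finite.of_injective φ hφ)

variable {w : G → ℝ} (f : A G)

/-- `a * w` -/
def cw (w : G → ℝ) (a : A G) (u : G) : ℝ := a.coeff.sum fun k n => (n : ℝ) * w (k⁻¹ * u)

theorem cw_add (a b : A G) (u : G) : cw w (a + b) u = cw w a u + cw w b u := by
  unfold cw
  rw [MonoidAlgebra.coeff_add]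
  exact Finsupp.sum_add_index' (fun k => by simp) (fun k m n => by push_cast; ring)

theorem cw_single (g : G) (n : ℤ) (u : G) :
    cw w (MonoidAlgebra.single g n) u = n * w (g⁻¹ * u) := by
  unfold cw
  rw [MonoidAlgebra.coeff_single, Finsupp.sum_single_index (by simp)]

theorem cw_zero (u : G) : cw w (0 : A G) u = 0 := by
  unfold cw; simp

theorem cw_shift (g : G) (a : A G) (u : G) :
    cw w (MonoidAlgebra.single g 1 * a) u = cw w a (g⁻¹ * u) := by
  induction a using MonoidAlgebra.induction_linear with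
  | zero => rw [mul_zero, cw_zero, cw_zero]
  | add a b ha hb => rw [mul_add, cw_add, cw_add, ha, hb]
  | single h n =>
    rw [MonoidAlgebra.single_mul_single, one_mul, cw_single, cw_single, mul_inv_rev, mul_assoc]

open Classical in
theorem cw_mul (hf : ∀ u, ∑ k ∈ f.coeff.support, (f.coeff k : ℝ) * w (k⁻¹ * u) = if u = 1 then 1 else 0)
    (a : A G) (u : G) : cw w (a * f) u = a.coeff u := by
  have hf' : ∀ u, cw w f u = if u = 1 then 1 else 0 := hf
  induction a using MonoidAlgebra.induction_linear with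
  | zero => rw [zero_mul, cw_zero]; simp
  | add a b ha hb => rw [add_mul, cw_add, ha, hb]; simp
  | single g n =>
    have h1 : (MonoidAlgebra.single g n * f : A G) = n • (MonoidAlgebra.single g 1 * f) := by
      rw [single_eq, smul_mul_assoc]
    have h2 : ∀ (n : ℤ) (b : A G), cw w (n • b) u = n * cw w b u := by
      intro n b
      unfold cw
      rw [MonoidAlgebra.coeff_smul, Finsupp.sum_smul_index' (by simp)]
      unfold Finsupp.sum
      rw [Finset.mul_sum]
      apply Finset.sum_congr rfl
      intro k _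
      simp only [smul_eq_mul]
      push_cast; ring
    rw [h1, h2, cw_shift, hf', MonoidAlgebra.coeff_single, Finsupp.single_apply]
    by_cases h : g = u
    · subst h; simp
    · have : ¬ g⁻¹ * u = 1 := fun h' => h (inv_mul_eq_one.mp h')
      simp [h, this]

/-- `φ * f` -/
def cf (f : A G) (φ : G → ℝ) (u : G) : ℝ := ∑ k ∈ f.coeff.support, φ (u * k⁻¹) * (f.coeff k : ℝ)

open Classical in
theorem cf_cw (hf : ∀ u, ∑ k ∈ f.coeff.support, w (u * k⁻¹) * (f.coeff k : ℝ) = if u = 1 then 1 else 0)
    (a : A G) (u : G) : cf f (cw w a) u = a.coeff u := by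
  induction a using MonoidAlgebra.induction_linear with
  | zero => unfold cf; simp [cw_zero]
  | add a b ha hb =>
    have : cf f (cw w (a + b)) u = cf f (cw w a) u + cf f (cw w b) u := by
      unfold cf
      rw [← Finset.sum_add_distrib]
      apply Finset.sum_congr rfl
      intro k _
      rw [cw_add]; ring
    rw [this, ha, hb]; simp
  | single g n =>
    have : cf f (cw w (MonoidAlgebra.single g n)) u =
        n * ∑ k ∈ f.coeff.support, w (g⁻¹ * u * k⁻¹) * (f.coeff k : ℝ) := by
      unfold cf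
      rw [Finset.mul_sum]
      apply Finset.sum_congr rfl
      intro k _
      rw [cw_single, mul_assoc g⁻¹ u]; ring
    rw [this, hf, MonoidAlgebra.coeff_single, Finsupp.single_apply]
    by_cases h : g = u
    · subst h; simp
    · have : ¬ g⁻¹ * u = 1 := fun h' => h (inv_mul_eq_one.mp h')
      simp [h, this]

theorem cf_coe (q : A G) (u : G) : cf f (fun h => (q.coeff h : ℝ)) u = ((q * f).coeff u : ℤ) := by
  unfold cf
  have h1 : q * f = ∑ k ∈ f.coeff.support, q * MonoidAlgebra.single k (f.coeff k) := by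
    conv_lhs => rw [sum_single f, Finset.mul_sum]
  rw [h1, MonoidAlgebra.coeff_sum, Finsupp.finsetSum_apply]
  push_cast
  apply Finset.sum_congr rfl
  intro k _
  rw [MonoidAlgebra.coeff_mul_single_apply]
  push_cast; ring

theorem cw_summable (hw : Summable fun g => |w g|) (a : A G) : Summable (cw w a) := by
  induction a using MonoidAlgebra.induction_linear with
  | zero => exact summable_zero.congr fun u => (cw_zero u).symm
  | add a b ha hb => exact (ha.add hb).congr fun u => (cw_add a b u).symm
  | single g n =>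
    have h1 : Summable w := hw.of_abs
    have h2 : Summable fun u => w (g⁻¹ * u) := (Equiv.mulLeft g⁻¹).summable_iff.mpr h1
    exact (h2.mul_left (n : ℝ)).congr fun u => (cw_single g n u).symm

theorem int_of_close (x : ℝ) (h : ∀ ε > 0, ∃ n : ℤ, |x - n| < ε) : ∃ n : ℤ, x = n := by
  refine ⟨round x, ?_⟩
  by_contra hne
  have hpos : 0 < |x - round x| := abs_pos.mpr (sub_ne_zero.mpr hne)
  obtain ⟨n, hn⟩ := h _ hpos
  exact absurd hn (not_lt.mpr (round_le x n))

open Classical in
theorem orbM (hw : Summable fun g => |w g|)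
    (hf1 : ∀ u, ∑ k ∈ f.coeff.support, (f.coeff k : ℝ) * w (k⁻¹ * u) = if u = 1 then 1 else 0)
    (hf2 : ∀ u, ∑ k ∈ f.coeff.support, w (u * k⁻¹) * (f.coeff k : ℝ) = if u = 1 then 1 else 0)
    (m : Mod f) (hm : m ≠ 0) :
    (Set.range fun g : G => (MonoidAlgebra.single g 1 : A G) • m).Infinite := by
  intro hfin
  have : Finite (Set.range fun g : G => (MonoidAlgebra.single g 1 : A G) • m) := hfin
  obtain ⟨⟨y, hy⟩, hinf⟩ := Finite.exists_infinite_fiber
    (Set.rangeFactorization fun g : G => (MonoidAlgebra.single g 1 : A G) • m)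
  set S : Set G := (Set.rangeFactorization fun g : G => (MonoidAlgebra.single g 1 : A G) • m) ⁻¹'
    {⟨y, hy⟩} with hS
  have hSinf : S.Infinite := Set.infinite_coe_iff.mp hinf
  have hSy : ∀ g ∈ S, (MonoidAlgebra.single g 1 : A G) • m = y := fun g hg => congrArg Subtype.val hg
  obtain ⟨r, rfl⟩ := mk_surj f m
  obtain ⟨g₀, hg₀⟩ := hSinf.nonempty
  have hdiff : ∀ g ∈ S, ∀ u, ∃ n : ℤ, cw w r (g₀⁻¹ * u) - n = cw w r (g⁻¹ * u) := by
    intro g hg u
    have h1 : mk f (MonoidAlgebra.single g₀ 1 * r - MonoidAlgebra.single g 1 * r) = 0 := by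
      show (MonoidAlgebra.single g₀ 1 : A G) • mk f r - (MonoidAlgebra.single g 1 : A G) • mk f r = 0
      rw [hSy g hg, hSy g₀ hg₀, sub_self]
    obtain ⟨q, hq⟩ := (mk_eq_zero f).mp h1
    refine ⟨q.coeff u, ?_⟩
    have h2 := cw_mul f hf1 q u
    have h3 : MonoidAlgebra.single g₀ 1 * r = q * f + MonoidAlgebra.single g 1 * r := by
      rw [hq]; abel
    have h4 := congrArg (fun a => cw w a u) h3
    simp only [cw_add, cw_shift] at h4
    rw [h2] at h4
    linarith
  have hsum := cw_summable hw r
  have htend := hsum.tendsto_cofinite_zero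
  have hint : ∀ h : G, ∃ n : ℤ, cw w r h = n := by
    intro h
    apply int_of_close
    intro ε hε
    have hev := (Metric.tendsto_nhds.mp htend) ε hε
    have hfin2 : {v : G | ¬ dist (cw w r v) 0 < ε}.Finite := hev
    have hinj : Function.Injective fun g : G => g⁻¹ * (g₀ * h) := by
      intro a b hab
      exact inv_injective (mul_right_cancel hab)
    have hpre : ((fun g : G => g⁻¹ * (g₀ * h)) ⁻¹' {v : G | ¬ dist (cw w r v) 0 < ε}).Finite :=
      hfin2.preimage hinj.injOn
    obtain ⟨g, hgS, hg⟩ := hSinf.exists_notMem_finite hpre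
    have hlt : dist (cw w r (g⁻¹ * (g₀ * h))) 0 < ε := by
      by_contra hcon
      exact hg hcon
    obtain ⟨n, hn⟩ := hdiff g hgS (g₀ * h)
    rw [inv_mul_cancel_left] at hn
    refine ⟨n, ?_⟩
    rw [hn]
    rwa [Real.dist_0_eq_abs] at hlt
  choose N hN using hint
  have hNfin : (Function.support N).Finite := by
    have hev := (Metric.tendsto_nhds.mp htend) 1 one_pos
    have hfin2 : {v : G | ¬ dist (cw w r v) 0 < 1}.Finite := hev
    apply hfin2.subset
    intro v hv
    simp only [Set.mem_ofPred_eq, not_lt, Real.dist_0_eq_abs]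
    rw [hN v]
    have : (1 : ℤ) ≤ |N v| := Int.one_le_abs hv
    exact_mod_cast this
  let q : A G := MonoidAlgebra.ofCoeff (Finsupp.ofSupportFinite N hNfin)
  have hq : ∀ h, q.coeff h = N h := fun h => rfl
  apply hm
  rw [mk_eq_zero]
  refine ⟨q, ?_⟩
  ext u
  have h1 := cf_cw f hf2 r u
  have h2 : cw w r = fun h => (q.coeff h : ℝ) := by
    funext h
    rw [hq]; exact hN h
  rw [h2, cf_coe] at h1
  exact_mod_cast h1

end orb

/-! ### the theorem -/

section final

variable {G : Type} [Group G] [Countable G] [Infinite G]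

/-- the triple product -/
abbrev Y3 (f : A G) := X (A G) × (X (A G) × X (Mod f))

/-- its measure -/
abbrev m3 (f : A G) : Measure (Y3 f) := (ν (A G)).prod (m2 f)

/-- action on the triple product -/
def act3 (f : A G) (g : G) (p : Y3 f) : Y3 f := (actA g p.1, actA g p.2.1, act f g p.2.2)

/-- characters of the triple product -/
def e3 (f : A G) : A G × (A G × Mod f) → C(Y3 f, ℂ) := CompactChars.prodE ev (CompactChars.prodE ev ev)

theorem e3_apply (f : A G) (i : A G × (A G × Mod f)) (p : Y3 f) :
    e3 f i p = ((p.1.1 i.1 : Circle) : ℂ) * (((p.2.1.1 i.2.1 : Circle) : ℂ) * ((p.2.2.1 i.2.2 : Circle) : ℂ)) := rfl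

theorem e3_chars (f : A G) : CompactChars.IsChars (m3 f) (e3 f) :=
  isChars_ev.prod (isChars_ev.prod isChars_ev)

/-- action on the indices -/
def mv (f : A G) (g : G) (i : A G × (A G × Mod f)) : A G × (A G × Mod f) :=
  (MonoidAlgebra.single g 1 * i.1, MonoidAlgebra.single g 1 * i.2.1, (MonoidAlgebra.single g 1 : A G) • i.2.2)

theorem e3_act3 (f : A G) (g : G) (i : A G × (A G × Mod f)) (p : Y3 f) :
    e3 f i (act3 f g p) = e3 f (mv f g⁻¹ i) p := rfl

theorem act3_mp (f : A G) (g : G) : MeasurePreserving (act3 f g) (m3 f) (m3 f) :=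
  (actA_mp g).prod ((actA_mp g).prod (act_mp f g))

theorem mv_inf (f : A G)
    (horb : ∀ m : Mod f, m ≠ 0 → (Set.range fun g : G => (MonoidAlgebra.single g 1 : A G) • m).Infinite)
    (i : A G × (A G × Mod f)) (hi : i ≠ 0) : (Set.range fun g : G => mv f g i).Infinite := by
  intro hfin
  have h1 : i.1 = 0 := by
    by_contra h
    apply orbA i.1 h
    apply (hfin.image Prod.fst).subset
    rintro _ ⟨g, rfl⟩
    exact ⟨mv f g i, ⟨g, rfl⟩, rfl⟩
  have h2 : i.2.1 = 0 := by
    by_contra h
    apply orbA i.2.1 h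
    apply (hfin.image fun p => p.2.1).subset
    rintro _ ⟨g, rfl⟩
    exact ⟨mv f g i, ⟨g, rfl⟩, rfl⟩
  have h3 : i.2.2 = 0 := by
    by_contra h
    apply horb i.2.2 h
    apply (hfin.image fun p => p.2.2).subset
    rintro _ ⟨g, rfl⟩
    exact ⟨mv f g i, ⟨g, rfl⟩, rfl⟩
  exact hi (Prod.ext h1 (Prod.ext h2 h3))

/-- an invariant circle valued function is constant -/
theorem const3 (f : A G)
    (horb : ∀ m : Mod f, m ≠ 0 → (Set.range fun g : G => (MonoidAlgebra.single g 1 : A G) • m).Infinite)
    (B : Y3 f → Circle) (hB : Measurable B) (hinv : ∀ g, ∀ᵐ p ∂(m3 f), B (act3 f g p) = B p) :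
    ∃ κ : Circle, ∀ᵐ p ∂(m3 f), B p = κ := by
  have hcoe0 : Continuous fun u : Circle => (u : ℂ) := continuous_subtype_val
  have hcoe : Measurable fun u : Circle => (u : ℂ) := hcoe0.measurable
  set F : Y3 f → ℂ := fun p => ((B p : Circle) : ℂ) with hF
  have hFm : Measurable F := hcoe.comp hB
  have hFL : MemLp F 2 (m3 f) := by
    refine MemLp.of_bound hFm.aestronglyMeasurable 1 ?_
    filter_upwards with p
    exact (Circle.norm_coe _).le
  set c : A G × (A G × Mod f) → ℂ := fun i => ∫ p, F p * conj (e3 f i p) ∂(m3 f) with hc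
  have hstep : ∀ g i, c (mv f g⁻¹ i) = c i := by
    intro g i
    have h1 : c i = ∫ p, F (act3 f g p) * conj (e3 f i (act3 f g p)) ∂(m3 f) := by
      show ∫ p, F p * conj (e3 f i p) ∂(m3 f) = _
      conv_lhs => rw [← (act3_mp f g).map_eq]
      rw [integral_map (act3_mp f g).measurable.aemeasurable]
      exact ((hFm.mul (Complex.continuous_conj.comp (e3 f i).continuous).measurable)).aestronglyMeasurable
    rw [h1]
    show ∫ p, F p * conj (e3 f (mv f g⁻¹ i) p) ∂(m3 f) = _
    apply integral_congr_ae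
    filter_upwards [hinv g] with p hp
    rw [e3_act3]
    show _ = ((B (act3 f g p) : Circle) : ℂ) * _
    rw [hp]
  have hcz : ∀ i, i ≠ 0 → c i = 0 := by
    intro i hi
    have hinf := mv_inf f horb i hi
    have emb := hinf.natEmbedding
    refine CompactChars.coeff_zero (e3_chars f) hFL (c i) (fun n => (emb n).1)
      (fun a b hab => emb.injective (Subtype.ext hab)) ?_
    intro n
    obtain ⟨g, hg⟩ := (emb n).2
    have := hstep g⁻¹ i
    rw [inv_inv] at this
    show c (emb n).1 = c i
    rw [← hg]; exact this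
  obtain ⟨k, hk⟩ := CompactChars.const_of_coeff (e3_chars f) hFL hcz
  have hne : ∃ p, F p = k := by
    have : (MeasureTheory.ae (m3 f)).NeBot := inferInstance
    exact hk.exists
  obtain ⟨p₀, hp₀⟩ := hne
  refine ⟨B p₀, ?_⟩
  filter_upwards [hk] with p hp
  apply Circle.ext
  show F p = F p₀
  rw [hp, hp₀]

/-! ### the algebraic cohomology -/

/-- Fourier coefficients -/
def fc (f : A G) (b : X (Mod f) → Circle) (m : Mod f) : ℂ :=
  ∫ x, ((b x : Circle) : ℂ) * conj (ev m x) ∂(ν (Mod f))

theorem fc_step (f : A G) (b : X (Mod f) → Circle) (hb : Measurable b) (g : G) (d : Mod f) (χ : Circle)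
    (h : ∀ᵐ x ∂(ν (Mod f)), x.1 d * b (act f g⁻¹ x) * (b x)⁻¹ = χ) (m : Mod f) :
    ‖fc f b ((MonoidAlgebra.single g 1 : A G) • m + d)‖ = ‖fc f b m‖ := by
  have hcoe0 : Continuous fun u : Circle => (u : ℂ) := continuous_subtype_val
  have hcoe : Measurable fun u : Circle => (u : ℂ) := hcoe0.measurable
  have e1 : fc f b ((MonoidAlgebra.single g 1 : A G) • m + d) = ((χ⁻¹ : Circle) : ℂ) * fc f b m := by
    have h1 : fc f b m = ∫ x, ((b (act f g⁻¹ x) : Circle) : ℂ) * conj (ev m (act f g⁻¹ x)) ∂(ν (Mod f)) := by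
      unfold fc
      conv_lhs => rw [← (act_mp f g⁻¹).map_eq]
      rw [integral_map (act_mp f g⁻¹).measurable.aemeasurable]
      exact (((hcoe.comp hb).mul
        (Complex.continuous_conj.comp (ev m).continuous).measurable)).aestronglyMeasurable
    rw [h1, ← integral_const_mul]
    unfold fc
    apply integral_congr_ae
    filter_upwards [h] with x hx
    have h2 : b x = χ⁻¹ * (x.1 d * b (act f g⁻¹ x)) := by
      rw [← hx, mul_inv, inv_inv, mul_comm _ (b x), mul_assoc, inv_mul_cancel, mul_one]
    have h3 : (act f g⁻¹ x).1 m = x.1 ((MonoidAlgebra.single g 1 : A G) • m) := by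
      show x.1 ((MonoidAlgebra.single g⁻¹⁻¹ (1 : ℤ) : A G) • m) = _
      rw [inv_inv]
    rw [ev_apply, ev_apply, h3, X_add, h2]
    have h4 : ((x.1 d : Circle) : ℂ) * conj ((x.1 d : Circle) : ℂ) = 1 := by
      rw [← Circle.coe_inv_eq_conj, ← Circle.coe_mul, mul_inv_cancel, Circle.coe_one]
    simp only [Circle.coe_mul, map_mul]
    calc _ = (((χ⁻¹ : Circle) : ℂ) * (((b (act f g⁻¹ x) : Circle) : ℂ) *
          conj ((x.1 ((MonoidAlgebra.single g 1 : A G) • m) : Circle) : ℂ))) *
          (((x.1 d : Circle) : ℂ) * conj ((x.1 d : Circle) : ℂ)) := by ring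
      _ = _ := by rw [h4, mul_one]
  rw [e1, norm_mul, Circle.norm_coe, one_mul]

theorem bessel (f : A G) (b : X (Mod f) → Circle) (hb : Measurable b) (S : ℕ → Mod f)
    (hS : Function.Injective S) (r : ℝ) (h : ∀ n, ‖fc f b (S n)‖ = r) : r = 0 := by
  classical
  have hcoe0 : Continuous fun u : Circle => (u : ℂ) := continuous_subtype_val
  have hcoe : Measurable fun u : Circle => (u : ℂ) := hcoe0.measurable
  have hF : MemLp (fun x => ((b x : Circle) : ℂ)) 2 (ν (Mod f)) := by
    refine MemLp.of_bound (hcoe.comp hb).aestronglyMeasurable 1 ?_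
    filter_upwards with p
    exact (Circle.norm_coe _).le
  have h1 := ((CompactChars.orthonormal_v (isChars_ev (M := Mod f))).comp S hS).inner_products_summable
    (hF.toLp _)
  have h2 : (fun n => ‖inner ℂ ((CompactChars.v (ν (Mod f)) ev ∘ S) n)
      (hF.toLp fun x => ((b x : Circle) : ℂ))‖ ^ 2) = fun _ => r ^ 2 := by
    ext n
    rw [Function.comp, CompactChars.inner_v_memLp]
    have := h n
    unfold fc at this
    rw [this]
  rw [h2, summable_const_iff] at h1
  simpa using h1

theorem fc_ne (f : A G) (b : X (Mod f) → Circle) (hb : Measurable b) : ∃ m, fc f b m ≠ 0 := by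
  by_contra hcon
  push Not at hcon
  have hcoe0 : Continuous fun u : Circle => (u : ℂ) := continuous_subtype_val
  have hcoe : Measurable fun u : Circle => (u : ℂ) := hcoe0.measurable
  have hF : MemLp (fun x => ((b x : Circle) : ℂ)) 2 (ν (Mod f)) := by
    refine MemLp.of_bound (hcoe.comp hb).aestronglyMeasurable 1 ?_
    filter_upwards with p
    exact (Circle.norm_coe _).le
  obtain ⟨k, hk⟩ := CompactChars.const_of_coeff (isChars_ev (M := Mod f)) hF (fun i _ => hcon i)
  have h0 := hcon 0
  unfold fc at h0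
  have h1 : ∫ x, ((b x : Circle) : ℂ) * conj (ev (0 : Mod f) x) ∂(ν (Mod f)) = k := by
    rw [integral_congr_ae (g := fun _ => k)]
    · simp
    · filter_upwards [hk] with x hx
      rw [hx, ev_apply, X_zero]; simp
  rw [h1] at h0
  have hne : (MeasureTheory.ae (ν (Mod f))).NeBot := inferInstance
  obtain ⟨x, hx⟩ := hk.exists
  rw [h0] at hx
  exact Circle.coe_ne_zero _ hx

/-- if every cocycle is cohomologous to a homomorphism and non-zero elements have infinite orbits, the
ordinary cohomology of the dual module vanishes -/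
theorem alg_zero (f : A G)
    (horb : ∀ m : Mod f, m ≠ 0 → (Set.range fun g : G => (MonoidAlgebra.single g 1 : A G) • m).Infinite)
    (hsr : Superrigid (ν (Mod f)) (act f)) (δ : G → Mod f)
    (hδ : ∀ g h, δ (g * h) = δ g + (MonoidAlgebra.single g 1 : A G) • δ h) :
    ∃ m : Mod f, ∀ g, δ g = (MonoidAlgebra.single g 1 : A G) • m - m := by
  have hcoc : IsCocycle (ν (Mod f)) (act f) (fun g x => x.1 (δ g)) := by
    refine ⟨fun g => measurable_coord (δ g), ?_⟩
    intro g h
    filter_upwards with x
    rw [hδ, X_add]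
    show _ = _ * x.1 ((MonoidAlgebra.single g⁻¹⁻¹ (1 : ℤ) : A G) • δ h)
    rw [inv_inv]
  obtain ⟨χ, b, hb, hbc⟩ := hsr _ hcoc
  obtain ⟨m₀, hm₀⟩ := fc_ne f b hb
  have hstep : ∀ g, ‖fc f b ((MonoidAlgebra.single g 1 : A G) • m₀ + δ g)‖ = ‖fc f b m₀‖ :=
    fun g => fc_step f b hb g (δ g) (χ g) (hbc g) m₀
  have hfin : (Set.range fun g : G => (MonoidAlgebra.single g 1 : A G) • m₀ + δ g).Finite := by
    by_contra hinf
    have hinf' : (Set.range fun g : G => (MonoidAlgebra.single g 1 : A G) • m₀ + δ g).Infinite := hinf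
    have emb := hinf'.natEmbedding
    apply hm₀
    rw [← norm_eq_zero]
    refine bessel f b hb (fun n => (emb n).1) (fun a b hab => emb.injective (Subtype.ext hab)) _ ?_
    intro n
    obtain ⟨g, hg⟩ := (emb n).2
    show ‖fc f b (emb n).1‖ = _
    rw [← hg]; exact hstep g
  have hone : (MonoidAlgebra.single (1 : G) 1 : A G) = 1 := (MonoidAlgebra.one_def).symm
  let δ' : G → Mod f := fun g => (MonoidAlgebra.single g 1 : A G) • m₀ + δ g - m₀
  have hδ' : ∀ g h, δ' (g * h) = δ' g + (MonoidAlgebra.single g 1 : A G) • δ' h := by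
    intro g h
    have e : (MonoidAlgebra.single (g * h) 1 : A G) = MonoidAlgebra.single g 1 * MonoidAlgebra.single h 1 := by
      rw [MonoidAlgebra.single_mul_single, mul_one]
    show (MonoidAlgebra.single (g * h) 1 : A G) • m₀ + δ (g * h) - m₀ = _
    rw [e, mul_smul, hδ]
    show _ = (MonoidAlgebra.single g 1 : A G) • m₀ + δ g - m₀ +
      (MonoidAlgebra.single g 1 : A G) • ((MonoidAlgebra.single h 1 : A G) • m₀ + δ h - m₀)
    rw [smul_sub, smul_add]
    abel
  have hD : (Set.range δ').Finite := by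
    have : Set.range δ' = (fun m => m - m₀) '' (Set.range fun g : G => (MonoidAlgebra.single g 1 : A G) • m₀ + δ g) := by
      rw [← Set.range_comp]; rfl
    rw [this]
    exact hfin.image _
  have hzero : ∀ g, δ' g = 0 := by
    intro g
    by_contra hne
    apply horb _ hne
    apply ((hD.prod hD).image fun p : Mod f × Mod f => p.1 - p.2).subset
    rintro _ ⟨h, rfl⟩
    refine ⟨(δ' (h * g), δ' h), ⟨⟨_, rfl⟩, ⟨_, rfl⟩⟩, ?_⟩
    show δ' (h * g) - δ' h = _
    rw [hδ']; abel
  refine ⟨-m₀, fun g => ?_⟩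
  have := hzero g
  have h2 : (MonoidAlgebra.single g 1 : A G) • m₀ + δ g - m₀ = 0 := this
  rw [smul_neg]
  have h3 : δ g = m₀ - (MonoidAlgebra.single g 1 : A G) • m₀ := by
    rw [← sub_eq_zero, ← h2]; abel
  rw [h3]; abel

open Classical in
/-- superrigidity and infinite orbits -/
theorem main (hG : InClassG G) (f : MonoidAlgebra ℤ G) (hf : InvertibleL1 f) :
    (∀ m : Mod f, m ≠ 0 → (Set.range fun g : G => (MonoidAlgebra.single g 1 : A G) • m).Infinite) ∧
      Superrigid (ν (Mod f)) (act f) := by
  obtain ⟨wc, hwc, h1, h2⟩ := hf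
  let w : G → ℝ := fun g => (wc g).re
  have hw : Summable fun g => |w g| :=
    Summable.of_nonneg_of_le (fun g => abs_nonneg _) (fun g => Complex.abs_re_le_norm _) hwc
  have hf1 : ∀ u, ∑ k ∈ f.coeff.support, (f.coeff k : ℝ) * w (k⁻¹ * u) = if u = 1 then 1 else 0 := by
    intro u
    have := congrArg Complex.re (h1 u)
    rw [Complex.re_sum] at this
    have h3 : ∀ k, ((f.coeff k : ℂ) * wc (k⁻¹ * u)).re = (f.coeff k : ℝ) * w (k⁻¹ * u) := by
      intro k; simp [w]
    simp only [h3] at this
    rw [this]; split_ifs <;> simp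
  have hf2 : ∀ u, ∑ k ∈ f.coeff.support, w (u * k⁻¹) * (f.coeff k : ℝ) = if u = 1 then 1 else 0 := by
    intro u
    have := congrArg Complex.re (h2 u)
    rw [Complex.re_sum] at this
    have h3 : ∀ k, (wc (u * k⁻¹) * (f.coeff k : ℂ)).re = w (u * k⁻¹) * (f.coeff k : ℝ) := by
      intro k; simp [w]
    simp only [h3] at this
    rw [this]; split_ifs <;> simp
  have hs : Sec f w := fun z => Q_sec hw f hf1 z
  have horb := orbM f hw hf1 hf2
  refine ⟨horb, ?_⟩
  intro c hcc
  -- pull the cocycle back to the Bernoulli shift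
  have hPK : MeasurePreserving (fun y : G → Circle => P f w (K y)) (μ₀ G) (ν (Mod f)) :=
    (P_mp hw hs).comp K_mp
  have hPKs : ∀ (g : G) (y : G → Circle), P f w (K (shift g y)) = act f g (P f w (K y)) := by
    intro g y
    rw [K_shift, P_actA hs]
  have hc' : IsCocycle (μ₀ G) (shift (X₀ := Circle)) (fun g y => c g (P f w (K y))) := by
    refine ⟨fun g => (hcc.measurable g).comp hPK.measurable, ?_⟩
    intro g h
    have := hPK.quasiMeasurePreserving.ae (hcc.mul g h)
    filter_upwards [this] with y hy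
    rw [hPKs]
    exact hy
  obtain ⟨χ, b, hb, hbc⟩ := hG Circle hc _ hc'
  -- pull back to the product
  let β : X (A G) × X (Mod f) → Circle := fun p => b (J (Φ f w p))
  have hJΦ : MeasurePreserving (fun p => J (Φ f w p)) (m2 f) (μ₀ G) := J_mp.comp (Φ_mp hw hs)
  have hβ : Measurable β := hb.comp hJΦ.measurable
  have hβc : ∀ g, ∀ᵐ p ∂(m2 f), c g p.2 * β (actA g⁻¹ p.1, act f g⁻¹ p.2) * (β p)⁻¹ = χ g := by
    intro g
    have := hJΦ.quasiMeasurePreserving.ae (hbc g)
    filter_upwards [this] with p hp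
    rw [K_J, P_Φ hs] at hp
    have e : β (actA g⁻¹ p.1, act f g⁻¹ p.2) = b (shift g⁻¹ (J (Φ f w p))) := by
      show b (J (Φ f w (actA g⁻¹ p.1, act f g⁻¹ p.2))) = _
      rw [Φ_act, J_actA]
    rw [e]; exact hp
  -- compare two values
  let B : Y3 f → Circle := fun q => β q.2 * (β (q.1, q.2.2))⁻¹
  have hproj : MeasurePreserving (fun q : Y3 f => (q.1, q.2.2)) (m3 f) (m2 f) :=
    (MeasurePreserving.id (ν (A G))).prod (snd_mp (f := f))
  have hproj2 : MeasurePreserving (fun q : Y3 f => q.2) (m3 f) (m2 f) := by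
    refine ⟨measurable_snd, ?_⟩
    have h := Measure.map_snd_prod (μ := (ν (A G) : Measure (X (A G)))) (ν := m2 f)
    rw [measure_univ, one_smul] at h
    exact h
  have hB : Measurable B := (hβ.comp hproj2.measurable).mul (hβ.comp hproj.measurable).inv
  have hinv : ∀ g, ∀ᵐ q ∂(m3 f), B (act3 f g q) = B q := by
    intro g
    have a1 := hproj2.quasiMeasurePreserving.ae (hβc g⁻¹)
    have a2 := hproj.quasiMeasurePreserving.ae (hβc g⁻¹)
    filter_upwards [a1, a2] with q h3 h4
    rw [inv_inv] at h3 h4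
    have hgen : ∀ a b c d : Circle, a * b * c⁻¹ = d → b = d * a⁻¹ * c := by
      intro a b c d h
      rw [← h, mul_assoc a b, mul_comm a, mul_inv_cancel_right, inv_mul_cancel_right]
    have h5 : β (actA g q.2.1, act f g q.2.2) = χ g⁻¹ * (c g⁻¹ q.2.2)⁻¹ * β q.2 := hgen _ _ _ _ h3
    have h6 : β (actA g q.1, act f g q.2.2) = χ g⁻¹ * (c g⁻¹ q.2.2)⁻¹ * β (q.1, q.2.2) := hgen _ _ _ _ h4
    show β (actA g q.2.1, act f g q.2.2) * (β (actA g q.1, act f g q.2.2))⁻¹ = β q.2 * (β (q.1, q.2.2))⁻¹
    rw [h5, h6, mul_inv, mul_mul_mul_comm, mul_inv_cancel, one_mul]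
  obtain ⟨κ, hκ⟩ := const3 f horb B hB hinv
  have hκ' := Measure.ae_ae_of_ae_prod hκ
  have hne : (MeasureTheory.ae (ν (A G))).NeBot := inferInstance
  obtain ⟨z₀, hz₀⟩ := hκ'.exists
  -- the transfer function
  refine ⟨χ, fun x => β (z₀, x), hβ.comp measurable_prodMk_left, ?_⟩
  intro g
  have hact : MeasurePreserving (fun p : X (A G) × X (Mod f) => (actA g⁻¹ p.1, act f g⁻¹ p.2)) (m2 f)
      (m2 f) := (actA_mp g⁻¹).prod (act_mp f g⁻¹)
  have h7 := hact.quasiMeasurePreserving.ae hz₀
  have h8 : ∀ᵐ p ∂(m2 f), c g p.2 * β (z₀, act f g⁻¹ p.2) * (β (z₀, p.2))⁻¹ = χ g := by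
    filter_upwards [h7, hz₀, hβc g] with p h9 h10 h11
    have h9' : β (actA g⁻¹ p.1, act f g⁻¹ p.2) = κ * β (z₀, act f g⁻¹ p.2) := by
      have : β (actA g⁻¹ p.1, act f g⁻¹ p.2) * (β (z₀, act f g⁻¹ p.2))⁻¹ = κ := h9
      rw [← this, inv_mul_cancel_right]
    have h10' : β p = κ * β (z₀, p.2) := by
      have : β p * (β (z₀, p.2))⁻¹ = κ := h10
      rw [← this, inv_mul_cancel_right]
    rw [← h11, h9', h10', mul_inv]
    rw [mul_assoc, mul_assoc]
    congr 1
    rw [mul_mul_mul_comm, mul_inv_cancel, one_mul]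
  have h9 := Measure.ae_ae_of_ae_prod h8
  obtain ⟨z₁, hz₁⟩ := h9.exists
  exact hz₁

end final

/-- **Main theorem.** If `G` is in the class `𝒢` and `f` is invertible in `ℓ¹(G)`, then every
measurable circle valued cocycle of `G ↷ X_f` is cohomologous to a homomorphism, and
`H¹(G, ℤG/ℤGf) = 0`. -/
theorem result (G : Type) [Group G] [Countable G] [Infinite G] (hG : InClassG G)
    (f : MonoidAlgebra ℤ G) (hf : InvertibleL1 f) :
    Superrigid (ν (Mod f)) (act f) ∧ CohomologyVanishes f := by
  obtain ⟨horb, hsr⟩ := main hG f hf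
  exact ⟨hsr, fun δ hδ => alg_zero f horb hsr δ hδ⟩

end

end Pool.Agent.Results.MP_e62806_an.NoneForInvertible
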