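import Pool.Agent.H238.PrincipalAlg

/-!
# MP_e62806_an, Q1: a weakly mixing principal algebraic action with non-trivial first cohomology

For `G = ℤ × F₂`, with `t` a generator of `ℤ`, and `f = 2(t - 1)`, the principal algebraic action
`G ↷ X_f` is weakly mixing and essentially free, and `H¹(G, ℤG/ℤGf) ≠ 0`. The group is inner amenable and
not amenable.
-/

set_option autoImplicit false

open MeasureTheory Pool.Agent.H238.DualGroup Pool.Agent.H238.PrincipalAlg

namespace Pool.Agent.Results.MP_e62806_an.NontrivialCohomology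

noncomputable section

section defs

variable {G : Type} [Group G]

/-- The left `ℤG`-module `ℤG/ℤGf`. -/
abbrev Mod (f : MonoidAlgebra ℤ G) : Type :=
  MonoidAlgebra ℤ G ⧸ Submodule.span (MonoidAlgebra ℤ G) {f}

/-- The action of a group element on `ℤG/ℤGf`. -/
def gsmul (f : MonoidAlgebra ℤ G) (g : G) (m : Mod f) : Mod f :=
  (MonoidAlgebra.single g (1 : ℤ) : MonoidAlgebra ℤ G) • m

/-- The dual action of `G` on the dual group `X_f` of `ℤG/ℤGf`: `(g x)(m) = x (g⁻¹ m)`. -/
def act (f : MonoidAlgebra ℤ G) (g : G) (x : X (Mod f)) : X (Mod f) :=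
  ⟨fun m => x.1 (gsmul f g⁻¹ m), by
    intro a b
    show x.1 (gsmul f g⁻¹ (a + b)) = _
    unfold gsmul
    rw [smul_add]; exact x.2 _ _⟩

/-- `G ↷ X_f` is weakly mixing: the diagonal action on `X_f × X_f` is ergodic. -/
def WeaklyMixing (f : MonoidAlgebra ℤ G) : Prop :=
  ∀ E : Set (X (Mod f) × X (Mod f)), MeasurableSet E →
    (∀ g : G, (fun p : X (Mod f) × X (Mod f) => (act f g p.1, act f g p.2)) ⁻¹' E
      =ᵐ[(ν (Mod f)).prod (ν (Mod f))] E) →
    ((ν (Mod f)).prod (ν (Mod f))) E = 0 ∨ ((ν (Mod f)).prod (ν (Mod f))) Eᶜ = 0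

/-- `G ↷ X_f` is essentially free. -/
def EssentiallyFree (f : MonoidAlgebra ℤ G) : Prop :=
  ∀ g : G, g ≠ 1 → ν (Mod f) {x | act f g x = x} = 0

/-- `H¹(G, ℤG/ℤGf) ≠ 0`: some crossed homomorphism `G → ℤG/ℤGf` is not principal. -/
def HasCohomology (f : MonoidAlgebra ℤ G) : Prop :=
  ∃ c : G → Mod f, (∀ g h, c (g * h) = c g + gsmul f g (c h)) ∧
    ¬ ∃ m, ∀ g, c g = gsmul f g m - m

/-- `μ` is a finitely additive probability measure on all subsets of `G`. -/
def IsMean (μ : Set G → ℝ) : Prop :=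
  (∀ A, 0 ≤ μ A) ∧ μ Set.univ = 1 ∧ ∀ A B, Disjoint A B → μ (A ∪ B) = μ A + μ B

variable (G) in
/-- `G` is amenable: it has a left-invariant mean. -/
def Amenable : Prop := ∃ μ : Set G → ℝ, IsMean μ ∧ ∀ (g : G) (A : Set G), μ ((fun x => g * x) '' A) = μ A

variable (G) in
/-- `G` is inner amenable: it has an atomless mean invariant under conjugation. -/
def InnerAmenable : Prop :=
  ∃ μ : Set G → ℝ, IsMean μ ∧ (∀ g : G, μ {g} = 0) ∧
    ∀ (g : G) (A : Set G), μ ((fun x => g * x * g⁻¹) '' A) = μ A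

end defs

/-- The group `ℤ × F₂`. -/
abbrev G : Type := Multiplicative ℤ × FreeGroup (Fin 2)

/-- The generator `t` of the factor `ℤ`. -/
def t : G := (Multiplicative.ofAdd 1, 1)

/-- The element `f = 2(t - 1)` of `ℤG`. -/
def f : MonoidAlgebra ℤ G := (2 : ℤ) • (MonoidAlgebra.single t 1 - 1)

/-! ### proofs -/

abbrev R := MonoidAlgebra ℤ G
abbrev RF := MonoidAlgebra ℤ (FreeGroup (Fin 2))

/-- the module -/
abbrev M := Mod f

/-- class of an element -/
def mk (r : R) : M := Submodule.Quotient.mk r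

theorem mk_eq_zero {r : R} : mk r = 0 ↔ ∃ u : R, u * f = r := by
  unfold mk
  rw [Submodule.Quotient.mk_eq_zero, Submodule.mem_span_singleton]
  rfl

theorem mk_surj (m : M) : ∃ r : R, mk r = m := Submodule.Quotient.mk_surjective _ m

theorem gsmul_mk (g : G) (r : R) : gsmul f g (mk r) = mk (MonoidAlgebra.single g 1 * r) := rfl

theorem mk_sub (r s : R) : mk r - mk s = mk (r - s) := rfl
theorem mk_add (r s : R) : mk r + mk s = mk (r + s) := rfl
theorem mk_zsmul (k : ℤ) (r : R) : k • mk r = mk (k • r) := rfl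

instance : Countable R := by
  have : Function.Injective (MonoidAlgebra.coeff : R → (G →₀ ℤ)) := MonoidAlgebra.coeff_injective
  exact this.countable

instance : Countable M := (Submodule.Quotient.mk_surjective _).countable

/-- all generators to `1` -/
def deg : FreeGroup (Fin 2) →* Multiplicative ℤ := FreeGroup.lift fun _ => Multiplicative.ofAdd 1

theorem of_pow_ne (i : Fin 2) (n : ℕ) (hn : 0 < n) : (FreeGroup.of i) ^ n ≠ 1 := by
  intro h
  have h1 := congrArg deg h
  rw [map_pow, map_one] at h1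
  have h2 : deg (FreeGroup.of i) = Multiplicative.ofAdd 1 := by simp [deg]
  rw [h2, ← ofAdd_nsmul] at h1
  have h3 : (n • (1 : ℤ)) = 0 := by simpa using h1
  simp at h3
  omega

theorem t_pow_ne (n : ℕ) (hn : 0 < n) : t ^ n ≠ 1 := by
  intro h
  have h1 := congrArg Prod.fst h
  rw [Prod.pow_fst] at h1
  have h2 : (t.1) = Multiplicative.ofAdd 1 := rfl
  rw [h2, ← ofAdd_nsmul] at h1
  have h3 : (n • (1 : ℤ)) = 0 := by simpa using h1
  simp at h3
  omega

theorem t_comm (g : G) : t * g = g * t := by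
  apply Prod.ext
  · exact mul_comm _ _
  · simp [t]

theorem tr_comm (r : R) : MonoidAlgebra.single t 1 * r = r * MonoidAlgebra.single t 1 := by
  induction r using MonoidAlgebra.induction_linear with
  | zero => simp
  | add x y hx hy => rw [mul_add, add_mul, hx, hy]
  | single g c => rw [MonoidAlgebra.single_mul_single, MonoidAlgebra.single_mul_single, t_comm,
      one_mul, mul_one]

/-- `t - 1` -/
def d : R := MonoidAlgebra.single t 1 - 1

theorem f_eq : f = (2 : ℤ) • d := rfl

theorem d_comm (r : R) : d * r = r * d := by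
  unfold d
  rw [sub_mul, mul_sub, tr_comm, one_mul, mul_one]

theorem d_cancel {v : R} (h : v * d = 0) : v = 0 := by
  rw [← d_comm] at h
  unfold d at h
  rw [sub_mul, one_mul, sub_eq_zero] at h
  exact fixed_zero v t t_pow_ne h

/-- projection to `ℤ[F₂]` -/
def π : R →+* RF := MonoidAlgebra.mapDomainRingHom ℤ (MonoidHom.snd _ _)

theorem π_single (g : G) (c : ℤ) : π (MonoidAlgebra.single g c) = MonoidAlgebra.single g.2 c := by
  simp [π]

theorem π_d : π d = 0 := by
  unfold d
  rw [map_sub, π_single, map_one]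
  show MonoidAlgebra.single (1 : FreeGroup (Fin 2)) (1 : ℤ) - 1 = 0
  rw [← MonoidAlgebra.one_def, sub_self]

theorem π_f : π f = 0 := by
  rw [f_eq, map_zsmul, π_d, smul_zero]

/-- `tⁿ - 1` is a multiple of `t - 1` -/
theorem pow_mem (k : ℤ) : ∃ q : R,
    q * d = MonoidAlgebra.single ((Multiplicative.ofAdd k, 1) : G) 1 - 1 := by
  induction k using Int.induction_on with
  | zero => exact ⟨0, by rw [zero_mul]; exact (sub_self _).symm⟩
  | succ k ih =>
    obtain ⟨q, hq⟩ := ih
    refine ⟨MonoidAlgebra.single ((Multiplicative.ofAdd (k : ℤ), 1) : G) 1 + q, ?_⟩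
    rw [add_mul, hq]
    unfold d
    rw [mul_sub, MonoidAlgebra.single_mul_single, mul_one, mul_one]
    have : ((Multiplicative.ofAdd (k : ℤ), 1) : G) * t = (Multiplicative.ofAdd ((k : ℤ) + 1), 1) := by
      apply Prod.ext
      · simp [t, ofAdd_add]
      · simp [t]
    rw [this]
    abel
  | pred k ih =>
    obtain ⟨q, hq⟩ := ih
    refine ⟨q - MonoidAlgebra.single ((Multiplicative.ofAdd (-(k : ℤ) - 1), 1) : G) 1, ?_⟩
    rw [sub_mul, hq]
    unfold d
    rw [mul_sub, MonoidAlgebra.single_mul_single, mul_one, mul_one]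
    have : ((Multiplicative.ofAdd (-(k : ℤ) - 1), 1) : G) * t = (Multiplicative.ofAdd (-(k : ℤ)), 1) := by
      apply Prod.ext
      · simp [t]
      · simp [t]
    rw [this]
    abel

/-- inclusion of `ℤ[F₂]` -/
def ι : RF →+* R := MonoidAlgebra.mapDomainRingHom ℤ (MonoidHom.inr _ _)

theorem ι_single (w : FreeGroup (Fin 2)) (c : ℤ) :
    ι (MonoidAlgebra.single w c) = MonoidAlgebra.single ((1, w) : G) c := by
  simp [ι]

theorem sub_ιπ (r : R) : ∃ q : R, q * d = r - ι (π r) := by
  induction r using MonoidAlgebra.induction_linear with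
  | zero => exact ⟨0, by simp⟩
  | add x y hx hy =>
    obtain ⟨p, hp⟩ := hx
    obtain ⟨q, hq⟩ := hy
    refine ⟨p + q, ?_⟩
    rw [add_mul, hp, hq, map_add, map_add]
    abel
  | single g c =>
    obtain ⟨n, w⟩ := g
    obtain ⟨q, hq⟩ := pow_mem (Multiplicative.toAdd n)
    refine ⟨MonoidAlgebra.single ((1, w) : G) c * q, ?_⟩
    rw [mul_assoc, hq, mul_sub, MonoidAlgebra.single_mul_single, mul_one, mul_one, π_single, ι_single]
    have : ((1, w) : G) * ((Multiplicative.ofAdd (Multiplicative.toAdd n), 1) : G) = (n, w) := by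
      apply Prod.ext
      · simp
      · simp
    rw [this]

theorem of_π_zero {r : R} (h : π r = 0) : ∃ q : R, q * d = r := by
  obtain ⟨q, hq⟩ := sub_ιπ r
  exact ⟨q, by rw [hq, h, map_zero, sub_zero]⟩

/-- key lemma: an element of `M` fixed by `h` is zero when both `h` and its image in `F₂` have infinite order -/
theorem fixed_M (h : G) (h1 : ∀ n : ℕ, 0 < n → h ^ n ≠ 1) (h2 : ∀ n : ℕ, 0 < n → h.2 ^ n ≠ 1)
    (m : M) (hm : gsmul f h m = m) : m = 0 := by
  obtain ⟨r, rfl⟩ := mk_surj m
  rw [gsmul_mk, ← sub_eq_zero, mk_sub, mk_eq_zero] at hm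
  obtain ⟨u, hu⟩ := hm
  have hπ := congrArg π hu
  rw [map_mul, π_f, mul_zero, map_sub, map_mul, π_single] at hπ
  have hr : π r = 0 := fixed_zero _ h.2 h2 (sub_eq_zero.mp hπ.symm)
  obtain ⟨s, rfl⟩ := of_π_zero hr
  have h3 : (MonoidAlgebra.single h 1 * s - s - (2 : ℤ) • u) * d = 0 := by
    rw [sub_mul, sub_mul, mul_assoc, ← hu, f_eq, mul_smul_comm, smul_mul_assoc, sub_self]
  have h4 := d_cancel h3
  have h5 := even_of s u h h1 (sub_eq_zero.mp h4)
  obtain ⟨s', rfl⟩ := exists_half s h5
  rw [mk_eq_zero]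
  exact ⟨s', by rw [f_eq, mul_smul_comm, smul_mul_assoc]⟩

/-- the automorphism given by a group element -/
def aut (g : G) : M ≃+ M where
  toFun := gsmul f g
  invFun := gsmul f g⁻¹
  left_inv := by
    intro m
    obtain ⟨r, rfl⟩ := mk_surj m
    rw [gsmul_mk, gsmul_mk, ← mul_assoc, MonoidAlgebra.single_mul_single, inv_mul_cancel, mul_one,
      ← MonoidAlgebra.one_def, one_mul]
  right_inv := by
    intro m
    obtain ⟨r, rfl⟩ := mk_surj m
    rw [gsmul_mk, gsmul_mk, ← mul_assoc, MonoidAlgebra.single_mul_single, mul_inv_cancel, mul_one,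
      ← MonoidAlgebra.one_def, one_mul]
  map_add' := by
    intro a b
    unfold gsmul
    exact smul_add _ _ _

theorem gsmul_mul (g h : G) (m : M) : gsmul f (g * h) m = gsmul f g (gsmul f h m) := by
  obtain ⟨r, rfl⟩ := mk_surj m
  rw [gsmul_mk, gsmul_mk, gsmul_mk, ← mul_assoc, MonoidAlgebra.single_mul_single, mul_one]

theorem gsmul_one (m : M) : gsmul f 1 m = m := by
  obtain ⟨r, rfl⟩ := mk_surj m
  rw [gsmul_mk, ← MonoidAlgebra.one_def, one_mul]

theorem aut_iter (g : G) (n : ℕ) (m : M) : (aut g : M → M)^[n] m = gsmul f (g ^ n) m := by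
  induction n generalizing m with
  | zero => rw [pow_zero, gsmul_one]; rfl
  | succ n ih =>
    rw [Function.iterate_succ_apply, ih, pow_succ, gsmul_mul]
    rfl

/-- the generator `a` of `F₂` -/
def a : G := (1, FreeGroup.of 0)
/-- the generator `b` of `F₂` -/
def b : G := (1, FreeGroup.of 1)

theorem a_pow_ne (n : ℕ) (hn : 0 < n) : a ^ n ≠ 1 := by
  intro h
  exact of_pow_ne 0 n hn (congrArg Prod.snd h)

theorem weaklyMixing : WeaklyMixing f := by
  intro E hE hinv
  refine zero_one (aut a) ?_ E hE ?_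
  · intro n hn m hm
    rw [aut_iter] at hm
    refine fixed_M (a ^ n) ?_ ?_ m hm
    · intro k hk
      rw [← pow_mul]
      exact a_pow_ne _ (Nat.mul_pos hn hk)
    · intro k hk
      rw [Prod.pow_snd, ← pow_mul]
      exact of_pow_ne 0 _ (Nat.mul_pos hn hk)
  · have := hinv a⁻¹
    have h2 : (fun p : X M × X M => (act f a⁻¹ p.1, act f a⁻¹ p.2)) =
        fun p : X M × X M => (pull (aut a) p.1, pull (aut a) p.2) := by
      funext p
      apply Prod.ext
      · apply Subtype.ext
        funext m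
        show p.1.1 (gsmul f a⁻¹⁻¹ m) = p.1.1 (gsmul f a m)
        rw [inv_inv]
      · apply Subtype.ext
        funext m
        show p.2.1 (gsmul f a⁻¹⁻¹ m) = p.2.1 (gsmul f a m)
        rw [inv_inv]
    rw [h2] at this
    exact this

theorem essentiallyFree : EssentiallyFree f := by
  intro g hg
  have hcont : Continuous (act f g) := by
    have h : Continuous (fun x : X M => fun m => x.1 (gsmul f g⁻¹ m)) :=
      continuous_pi fun m => (continuous_apply _).comp continuous_subtype_val
    exact Continuous.subtype_mk h (fun x => (act f g x).2)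
  have hcl : IsClosed {x : X M | act f g x = x} := isClosed_eq hcont continuous_id
  set s : R := MonoidAlgebra.single g⁻¹ 1 - 1 with hs
  refine null_of_trivial _ hcl (fun n => gsmul f (t ^ n) (mk (s * d))) ?_ ?_
  · have key : ∀ k l : ℕ, k < l →
        gsmul f (t ^ k) (mk (s * d)) ≠ gsmul f (t ^ l) (mk (s * d)) := by
      intro k l hkl h
      have h1 : t ^ l = t ^ k * t ^ (l - k) := by rw [← pow_add]; congr 1; omega
      rw [h1, gsmul_mul] at h
      have h2 : mk (s * d) = gsmul f (t ^ (l - k)) (mk (s * d)) := (aut (t ^ k)).injective h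
      have h3 : mk (MonoidAlgebra.single (t ^ (l - k)) 1 * (s * d) - s * d) = 0 := by
        rw [← mk_sub, ← gsmul_mk, ← h2, sub_self]
      rw [mk_eq_zero] at h3
      obtain ⟨u, hu⟩ := h3
      have h4 : (MonoidAlgebra.single (t ^ (l - k)) 1 * s - s - (2 : ℤ) • u) * d = 0 := by
        rw [sub_mul, sub_mul, mul_assoc, ← hu, f_eq, mul_smul_comm, smul_mul_assoc, sub_self]
      have h5 := d_cancel h4
      have h6 := even_of s u (t ^ (l - k)) (by
        intro n hn
        rw [← pow_mul]
        exact t_pow_ne _ (Nat.mul_pos (by omega) hn)) (sub_eq_zero.mp h5) 1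
      have h7 : s.coeff 1 = -1 := by
        rw [hs, MonoidAlgebra.one_def]
        simp only [MonoidAlgebra.coeff_sub, MonoidAlgebra.coeff_single, Finsupp.coe_sub, Pi.sub_apply]
        rw [Finsupp.single_eq_of_ne (by simpa using hg), Finsupp.single_eq_same]
        norm_num
      rw [h7] at h6
      exact absurd h6 (by decide)
    intro k l hkl
    rcases lt_trichotomy k l with h | h | h
    · exact absurd hkl (key k l h)
    · exact h
    · exact absurd hkl.symm (key l k h)
  · intro n x hx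
    have h1 : gsmul f (t ^ n) (mk (s * d)) =
        gsmul f g⁻¹ (mk (MonoidAlgebra.single (t ^ n) 1 * d)) - mk (MonoidAlgebra.single (t ^ n) 1 * d) := by
      rw [gsmul_mk, gsmul_mk, mk_sub, hs, sub_mul, mul_sub, one_mul, ← mul_assoc, ← mul_assoc,
        MonoidAlgebra.single_mul_single, MonoidAlgebra.single_mul_single]
      have h2 : t ^ n * g⁻¹ = g⁻¹ * t ^ n := by
        have : Commute t g⁻¹ := t_comm g⁻¹
        exact this.pow_left n
      rw [h2]
    have hx' : act f g x = x := hx
    have h3 : ∀ m, x.1 (gsmul f g⁻¹ m) = x.1 m := by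
      intro m
      have := congrArg (fun y : X M => y.1 m) hx'
      exact this
    rw [h1, X_sub, h3, mul_inv_cancel]

/-- the action of `F₂` by affine maps -/
def ρ : FreeGroup (Fin 2) →* Equiv.Perm M :=
  FreeGroup.lift fun i => (aut ((1, FreeGroup.of i) : G)).toEquiv.trans
    (Equiv.addRight (if i = 0 then mk 1 else 0))

theorem ρ_of (i : Fin 2) (m : M) :
    ρ (FreeGroup.of i) m = gsmul f ((1, FreeGroup.of i) : G) m + (if i = 0 then mk 1 else 0) := by
  simp [ρ, aut]

theorem ρ_aff (w : FreeGroup (Fin 2)) (m : M) :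
    ρ w m = gsmul f ((1, w) : G) m + ρ w 0 := by
  induction w using FreeGroup.induction_on generalizing m with
  | C1 =>
    rw [map_one]
    show m = gsmul f 1 m + 0
    rw [gsmul_one, add_zero]
  | of i =>
    rw [ρ_of, ρ_of]
    have : gsmul f ((1, FreeGroup.of i) : G) 0 = 0 := (aut _).map_zero
    rw [this, zero_add]
  | inv_of i ih =>
    have h0 : ∀ m : M, ρ (FreeGroup.of i)⁻¹ m =
        gsmul f ((1, FreeGroup.of i) : G)⁻¹ (m - (if i = 0 then mk 1 else 0)) := by
      intro m
      rw [map_inv]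
      rw [Equiv.Perm.inv_eq_iff_eq]
      rw [ρ_of]
      have := (aut ((1, FreeGroup.of i) : G)).right_inv (m - (if i = 0 then mk 1 else 0))
      have h2 : gsmul f ((1, FreeGroup.of i) : G)
        (gsmul f ((1, FreeGroup.of i) : G)⁻¹ (m - (if i = 0 then mk 1 else 0))) =
          m - (if i = 0 then mk 1 else 0) := this
      rw [h2, sub_add_cancel]
    rw [h0 m, h0 0]
    have h1 : ((1, FreeGroup.of i) : G)⁻¹ = ((1, (FreeGroup.of i)⁻¹) : G) := by
      apply Prod.ext
      · simp
      · simp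
    rw [← h1]
    have h3 : ∀ x y : M, gsmul f ((1, FreeGroup.of i) : G)⁻¹ (x - y) =
      gsmul f ((1, FreeGroup.of i) : G)⁻¹ x - gsmul f ((1, FreeGroup.of i) : G)⁻¹ y :=
        fun x y => (aut _).map_sub x y
    rw [h3, h3]
    have h4 : gsmul f ((1, FreeGroup.of i) : G)⁻¹ 0 = 0 := (aut _).map_zero
    rw [h4]
    abel
  | mul x y hx hy =>
    rw [map_mul, Equiv.Perm.mul_apply, Equiv.Perm.mul_apply, hy m, hx, hx (ρ y 0)]
    have h1 : ((1, x * y) : G) = (1, x) * (1, y) := by
      apply Prod.ext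
      · simp
      · simp
    rw [h1, gsmul_mul]
    have h2 : gsmul f ((1, x) : G) (gsmul f ((1, y) : G) m + ρ y 0) =
      gsmul f ((1, x) : G) (gsmul f ((1, y) : G) m) + gsmul f ((1, x) : G) (ρ y 0) :=
        (aut _).map_add _ _
    rw [h2]
    abel

theorem t_two (n : Multiplicative ℤ) (m : M) : gsmul f ((n, 1) : G) ((2 : ℤ) • m) = (2 : ℤ) • m := by
  obtain ⟨r, rfl⟩ := mk_surj m
  obtain ⟨q, hq⟩ := pow_mem (Multiplicative.toAdd n)
  have hq' : q * d = MonoidAlgebra.single ((n, 1) : G) 1 - 1 := hq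
  rw [mk_zsmul, gsmul_mk, ← sub_eq_zero, mk_sub, mk_eq_zero]
  refine ⟨q * r, ?_⟩
  rw [f_eq, mul_smul_comm, mul_assoc, ← d_comm, ← mul_assoc, hq', sub_mul, one_mul, mul_smul_comm,
    smul_sub]

theorem hasCohomology : HasCohomology f := by
  refine ⟨fun g => (2 : ℤ) • ρ g.2 0, ?_, ?_⟩
  · intro g h
    have h1 : ρ (g * h).2 0 = gsmul f ((1, g.2) : G) (ρ h.2 0) + ρ g.2 0 := by
      rw [Prod.snd_mul, map_mul, Equiv.Perm.mul_apply, ρ_aff]
    show (2 : ℤ) • ρ (g * h).2 0 = (2 : ℤ) • ρ g.2 0 + gsmul f g ((2 : ℤ) • ρ h.2 0)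
    have h2 : g = ((g.1, 1) : G) * ((1, g.2) : G) := by
      apply Prod.ext
      · simp
      · simp
    have h3 : gsmul f g ((2 : ℤ) • ρ h.2 0) = (2 : ℤ) • gsmul f ((1, g.2) : G) (ρ h.2 0) := by
      conv_lhs => rw [h2, gsmul_mul]
      have h4 : gsmul f ((1, g.2) : G) ((2 : ℤ) • ρ h.2 0) =
        (2 : ℤ) • gsmul f ((1, g.2) : G) (ρ h.2 0) := map_zsmul (aut ((1, g.2) : G)) 2 _
      rw [h4, t_two]
    rw [h3, h1, smul_add, add_comm]
  · rintro ⟨m, hm⟩
    obtain ⟨r, rfl⟩ := mk_surj m
    have hb := hm b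
    have ha := hm a
    have hb1 : ρ b.2 0 = 0 := by
      show ρ (FreeGroup.of 1) 0 = 0
      rw [ρ_of]
      have : gsmul f ((1, FreeGroup.of 1) : G) 0 = 0 := (aut _).map_zero
      rw [this]; simp
    have ha1 : ρ a.2 0 = mk 1 := by
      show ρ (FreeGroup.of 0) 0 = mk 1
      rw [ρ_of]
      have : gsmul f ((1, FreeGroup.of 0) : G) 0 = 0 := (aut _).map_zero
      rw [this]; simp
    simp only [hb1, smul_zero] at hb
    simp only [ha1] at ha
    rw [gsmul_mk, mk_sub] at hb
    rw [gsmul_mk, mk_sub, mk_zsmul, ← sub_eq_zero, mk_sub] at ha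
    obtain ⟨u, hu⟩ := mk_eq_zero.mp hb.symm
    obtain ⟨w, hw⟩ := mk_eq_zero.mp ha
    have hu' := congrArg π hu
    have hw' := congrArg π hw
    rw [map_mul, π_f, mul_zero, map_sub, map_mul, π_single] at hu'
    have hr : π r = 0 := fixed_zero _ b.2 (of_pow_ne 1) (sub_eq_zero.mp hu'.symm)
    rw [map_mul, π_f, mul_zero, map_sub, map_sub, map_mul, hr, mul_zero, sub_zero, sub_zero,
      map_zsmul, map_one] at hw'
    have h8 := congrArg (fun z => (MonoidAlgebra.coeff z) 1) hw'
    simp [MonoidAlgebra.one_def] at h8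

theorem not_amenable : ¬ Amenable G := by
  rintro ⟨μ, ⟨hpos, huniv, hadd⟩, hinv⟩
  have mono : ∀ A B : Set G, A ⊆ B → μ A ≤ μ B := by
    intro A B hAB
    have h1 : B = A ∪ (B \ A) := (Set.union_sdiff_cancel hAB).symm
    rw [h1, hadd _ _ Set.disjoint_sdiff_right]
    linarith [hpos (B \ A)]
  have sub : ∀ A B : Set G, μ (A ∪ B) ≤ μ A + μ B := by
    intro A B
    have h1 : A ∪ B = A ∪ (B \ A) := Set.union_sdiff_self.symm
    rw [h1, hadd _ _ Set.disjoint_sdiff_right]
    linarith [mono (B \ A) B Set.sdiff_subset]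
  let W : Fin 2 × Bool → Set G := fun w => {g : G | g.2 ∈ FreeGroup.startsWith w}
  have h1 : ∀ i : Fin 2, 1 ≤ μ (W (i, true)) + μ (W (i, false)) := by
    intro i
    set c : G := (1, FreeGroup.mk [(i, true)]) with hc
    have h2 : (Set.univ : Set G) ⊆ W (i, false) ∪ (fun x => c⁻¹ * x) '' W (i, true) := by
      intro g _
      by_cases hg : g.2 ∈ FreeGroup.startsWith (i, false)
      · exact Or.inl hg
      · right
        refine ⟨c * g, ?_, by simp⟩
        exact FreeGroup.startsWith_mk_mul (w := (i, true)) g.2 hg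
    have h3 := mono _ _ h2
    have h4 := sub (W (i, false)) ((fun x => c⁻¹ * x) '' W (i, true))
    rw [hinv] at h4
    linarith
  have hdis : ∀ w w' : Fin 2 × Bool, w ≠ w' → Disjoint (W w) (W w') := by
    intro w w' h
    have := FreeGroup.startsWith.disjoint_iff_ne.mpr h
    rw [Set.disjoint_left] at this ⊢
    intro g hg hg'
    exact this hg hg'
  have h5 : μ ((W (0, true) ∪ W (0, false)) ∪ (W (1, true) ∪ W (1, false))) ≤ 1 := by
    rw [← huniv]; exact mono _ _ (Set.subset_univ _)
  rw [hadd _ _ (by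
    rw [Set.disjoint_union_left, Set.disjoint_union_right, Set.disjoint_union_right]
    exact ⟨⟨hdis _ _ (by decide), hdis _ _ (by decide)⟩, hdis _ _ (by decide), hdis _ _ (by decide)⟩),
    hadd _ _ (hdis _ _ (by decide)), hadd _ _ (hdis _ _ (by decide))] at h5
  have h6 := h1 0
  have h7 := h1 1
  linarith

open Classical in
theorem innerAmenable : InnerAmenable G := by
  let 𝒰 : Ultrafilter ℤ := Filter.hyperfilter ℤ
  let p : Set G → Set ℤ := fun A => {n | ((Multiplicative.ofAdd n, 1) : G) ∈ A}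
  refine ⟨fun A => if p A ∈ 𝒰 then 1 else 0, ⟨?_, ?_, ?_⟩, ?_, ?_⟩
  · intro A; dsimp only; split_ifs <;> norm_num
  · have : p Set.univ ∈ 𝒰 := by
      have : p Set.univ = Set.univ := by ext; simp [p]
      rw [this]; exact Filter.univ_mem
    simp only [this, if_true]
  · intro A B hAB
    have hu : p (A ∪ B) = p A ∪ p B := rfl
    have hd : p A ∈ 𝒰 → p B ∈ 𝒰 → False := by
      intro hA hB
      have h1 := Filter.inter_mem hA hB
      have h2 : p A ∩ p B = ∅ := by
        ext n
        simp only [Set.mem_inter_iff, Set.mem_empty_iff_false, iff_false]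
        rintro ⟨h3, h4⟩
        exact Set.disjoint_left.mp hAB h3 h4
      rw [h2] at h1
      exact 𝒰.empty_notMem h1
    have hor : p (A ∪ B) ∈ 𝒰 ↔ p A ∈ 𝒰 ∨ p B ∈ 𝒰 := by
      rw [hu]; exact Ultrafilter.union_mem_iff
    by_cases hA : p A ∈ 𝒰
    · by_cases hB : p B ∈ 𝒰
      · exact (hd hA hB).elim
      · simp only [hor, hA, hB, if_true, if_false, true_or]; norm_num
    · by_cases hB : p B ∈ 𝒰
      · simp only [hor, hA, hB, if_true, if_false, or_true]; norm_num
      · simp only [hor, hA, hB, if_false, or_self]; norm_num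
  · intro g
    have : p {g} ∉ 𝒰 := by
      have hfin : (p {g}).Finite := by
        apply Set.Subsingleton.finite
        intro m hm n hn
        have h1 : ((Multiplicative.ofAdd m, 1) : G) = g := hm
        have h2 : ((Multiplicative.ofAdd n, 1) : G) = g := hn
        have h3 := congrArg Prod.fst (h1.trans h2.symm)
        exact Multiplicative.ofAdd.injective h3
      exact Filter.notMem_hyperfilter_of_finite hfin
    simp only [this, if_false]
  · intro g A
    have : p ((fun x => g * x * g⁻¹) '' A) = p A := by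
      ext n
      have hc : g⁻¹ * ((Multiplicative.ofAdd n, 1) : G) * g = (Multiplicative.ofAdd n, 1) := by
        apply Prod.ext
        · simp [mul_comm]
        · simp
      constructor
      · rintro ⟨x, hx, h⟩
        have h' : g * x * g⁻¹ = (Multiplicative.ofAdd n, 1) := h
        have : x = (Multiplicative.ofAdd n, 1) := by
          rw [← hc, ← h']; group
        show ((Multiplicative.ofAdd n, 1) : G) ∈ A
        rw [← this]; exact hx
      · intro h
        refine ⟨(Multiplicative.ofAdd n, 1), h, ?_⟩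
        show g * ((Multiplicative.ofAdd n, 1) : G) * g⁻¹ = _
        apply Prod.ext
        · simp [mul_comm]
        · simp
    simp only [this]

/-- **Main theorem.** For `G = ℤ × F₂` and `f = 2(t - 1)` the principal algebraic action is weakly mixing and
essentially free and has non-trivial first cohomology; the group is inner amenable and not amenable. -/
theorem result : InnerAmenable G ∧ ¬ Amenable G ∧ WeaklyMixing f ∧ EssentiallyFree f ∧ HasCohomology f :=
  ⟨innerAmenable, not_amenable, weaklyMixing, essentiallyFree, hasCohomology⟩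

end

end Pool.Agent.Results.MP_e62806_an.NontrivialCohomology
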